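import Pool.Agent.Helper27.TF.Defs

/-!
Project PW (MP_b8862a_ag): the dimensions of the non-standard irreducible self-dual representations have density zero.
Definitions. Paper: /team-store/h81_PW_paper.md
-/

set_option linter.unusedSectionVars false

open Module PF TF

namespace PW

open Classical in
/-- The number of elements `1 ≤ n ≤ X` of `S`. -/
noncomputable def cn (S : Set ℕ) (X : ℕ) : ℕ := ((Finset.Icc 1 X).filter (· ∈ S)).card

/-- The set has natural density zero. -/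
def Zero (S : Set ℕ) : Prop := ∀ K : ℕ, ∃ X₀ : ℕ, ∀ X, X₀ ≤ X → K * cn S X ≤ X

/-- The `n` all of whose prime factors are at most `(C n)^(1/K)`. -/
def SM (K C : ℕ) : Set ℕ := {n | ∀ p : ℕ, p.Prime → p ∣ n → p ^ K ≤ C * n}

/-- The arithmetic datum of Weyl's dimension formula: `r` simple coroots, `N` positive coroots with the coefficients `f`,
`b j - 1` the pairings of the highest weight with the simple coroots; `s` gives the simple coroots among all of them. -/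
def Dt (M n : ℕ) : Prop := ∃ (r N : ℕ) (f : Fin N → Fin r → ℕ) (b : Fin r → ℕ) (s : Fin r → Fin N),
  2 ≤ r ∧ r ≤ M ∧ N ≤ M ∧ (∀ a j, f a j ≤ 4 * M) ∧ (∀ a, 0 < ∑ j, f a j) ∧ (∀ j, 0 < b j) ∧
  Function.Injective s ∧ (∀ j i, f (s j) i = if i = j then 1 else 0) ∧
  (∀ j, ∃ a, (∀ i, s i ≠ a) ∧ 1 ≤ f a j) ∧
  n * ∏ a, ∑ j, f a j = ∏ a, ∑ j, f a j * b j

section euclid

variable {E : Type*} [NormedAddCommGroup E] [InnerProductSpace ℝ E]

open Classical in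
/-- The positive roots with respect to `v`. -/
noncomputable def Ps (Φ : Finset E) (v : E) : Finset E := Φ.filter fun a => 0 < (inner ℝ v a : ℝ)

/-- The data: `Φ` the roots, `X` the weights of a faithful self dual irreducible module of dimension `n`, `l` the
highest weight, `v` the sum of the positive roots, Weyl's dimension formula. -/
structure Wd (Φ X : Finset E) (n : ℕ) (l v : E) : Prop where
  rs : RS Φ
  sat : Sat Φ X
  card_le : X.card ≤ n
  l_mem : l ∈ X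
  l_ne : l ≠ 0
  l_max : ∀ x ∈ X, (inner ℝ x x : ℝ) ≤ inner ℝ l l
  reg : ∀ a ∈ Φ, (inner ℝ v a : ℝ) ≠ 0
  v_eq : v = ∑ a ∈ Ps Φ v, a
  dom : ∀ a ∈ Ps Φ v, 0 ≤ (inner ℝ l a : ℝ)
  dim : (n : ℝ) * ∏ a ∈ Ps Φ v, (inner ℝ v a : ℝ) = ∏ a ∈ Ps Φ v, (inner ℝ ((2 : ℝ) • l + v) a : ℝ)
  prime : ∀ p : ℕ, p.Prime → p ∣ n → ∃ a ∈ Φ, ∃ x ∈ X, (p : ℝ) ≤ co a x + qs Φ a
  dt : ¬ TypeA Φ → Dt Φ.card n

end euclid

/-- Twice the coordinates of half the sum of the positive roots: types `B` (`d = 1`), `C` (`d = 2`), `D` (`d = 0`). -/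
def Vd (d m : ℕ) (i : Fin m) : ℤ := 2 * ((m : ℤ) - 1 - (i : ℕ)) + d

/-- Weyl's product for the highest weight with the coordinates `x`, types `B`, `C`, `D`. -/
def Pd (d m : ℕ) (x : Fin m → ℤ) : ℤ :=
  (∏ i, ∏ j ∈ Finset.Ioi i, ((2 * x i + Vd d m i) ^ 2 - (2 * x j + Vd d m j) ^ 2)) *
    (if d = 0 then 1 else ∏ i, (2 * x i + Vd d m i))

/-- Weyl's product for the highest weight with the coordinates `x`, type `A`. -/
def Pa (m : ℕ) (x : Fin m → ℤ) : ℤ := ∏ i, ∏ j ∈ Finset.Ioi i, (x i - x j + ((j : ℕ) - (i : ℕ)))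

/-- The dimensions of the representations with few boxes, types `B`, `C`, `D`. -/
def FewD (K : ℕ) : Set ℕ := {n | ∃ (d m : ℕ) (x : Fin m → ℤ), d ≤ 2 ∧ K ≤ m ∧ m ^ 2 ≤ 4 * n ∧ ∑ i, |x i| < K ∧
  (∀ i j, i < j → |x j| ≤ x i) ∧ n * Pd d m 0 = Pd d m x ∧ Pd d m 0 ≠ 0}

/-- The dimensions of the representations with few boxes, type `A`. -/
def FewA (K : ℕ) : Set ℕ := {n | ∃ (m : ℕ) (x : Fin m → ℤ), m ^ 2 ≤ 4 * n ∧ ∑ i, |x i| < K ∧
  (∀ i j, i < j → x j ≤ x i) ∧ n * Pa m 0 = Pa m x ∧ Pa m 0 ≠ 0}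

/-- The exceptional dimensions. -/
def Ex : Set ℕ := {n | ∃ (ι : Type) (_ : Fintype ι) (Φ X : Finset (EuclideanSpace ℝ ι)) (l v : EuclideanSpace ℝ ι),
  Wd Φ X n l v ∧ ¬ TypeA Φ ∧ ¬ TypeB Φ X ∧ ¬ TypeD Φ X}

end PW
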