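import Pool.Agent.Helper81.PW.Comb
import Pool.Agent.Helper81.PW.Defs

/-!
Project PW (MP_b8862a_ag): the weights in the coordinates of `B_m`, `C_m`, `D_m`, `m` large.
-/

set_option linter.unusedSectionVars false

open Module PF TF

namespace PW

theorem exists_inj {m K : ℕ} (S : Finset (Fin m)) (h : K ≤ S.card) :
    ∃ j : Fin K → Fin m, Function.Injective j ∧ ∀ k, j k ∈ S :=
  ⟨fun k => S.orderEmbOfFin rfl (Fin.castLE h k), fun a b hab => by
    have h1 := (S.orderEmbOfFin rfl).injective hab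
    exact Fin.castLE_injective h h1, fun k => Finset.orderEmbOfFin_mem _ _ _⟩

theorem exists_sgn (x : ℝ) : ∃ s : ℤ, (s = 1 ∨ s = -1) ∧ (s : ℝ) * x = |x| := by
  rcases le_or_gt 0 x with hx | hx
  · exact ⟨1, Or.inl rfl, by rw [abs_of_nonneg hx]; norm_num⟩
  · exact ⟨-1, Or.inr rfl, by rw [abs_of_neg hx]; norm_num⟩

section

variable {E : Type*} [NormedAddCommGroup E] [InnerProductSpace ℝ E] {Φ X : Finset E} {m : ℕ} {e : Fin m → E} {c : ℝ}
  {d : ℕ}

/-- growth -/
theorem grow (F : Fr Φ m e c d) (hX : Sat Φ X) {x : E} (hx : x ∈ X) (i0 : Fin m) {K : ℕ} (hK : 0 < K)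
    (hm : K + 1 ≤ m) : |cx e c x i0| ^ K ≤ ((K ^ K : ℕ) : ℝ) * X.card := by
  classical
  refine pow_of_floor (abs_nonneg _) hK ?_
  obtain ⟨A, hA⟩ : ∃ A, A = |cx e c x i0| := ⟨_, rfl⟩
  rw [← hA]
  have hA0 : 0 ≤ A := hA ▸ abs_nonneg _
  obtain ⟨T, hT⟩ : ∃ T : ℕ, T = ⌊A / K⌋₊ := ⟨_, rfl⟩
  rw [← hT]
  have hKr : (0 : ℝ) < K := by exact_mod_cast hK
  have hTA : (K : ℝ) * T ≤ A := by
    have h1 : (T : ℝ) ≤ A / K := by rw [hT]; exact Nat.floor_le (by positivity)
    rw [le_div_iff₀ hKr] at h1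
    linarith
  obtain ⟨j, hj, hj0⟩ := exists_inj (K := K) (Finset.univ.erase i0)
    (by rw [Finset.card_erase_of_mem (Finset.mem_univ _), Finset.card_univ, Fintype.card_fin]; omega)
  have hj1 : ∀ k, i0 ≠ j k := fun k => (Finset.mem_erase.1 (hj0 k)).1.symm
  obtain ⟨s0, hs0, hs1⟩ := exists_sgn (cx e c x i0)
  choose σ hσ hσ1 using fun i => exists_sgn (cx e c x i)
  refine card_ge X (K := K) (T := T) (fun y t => ∀ k, cx e c y (j k) = cx e c x (j k) - σ (j k) * t k) ?_ ?_
  · intro y t t' h1 h2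
    funext k
    have h3 := (h1 k).symm.trans (h2 k)
    have h4 : (σ (j k) : ℝ) * t k = σ (j k) * t' k := by linarith
    have h5 : (σ (j k) : ℝ) ≠ 0 := by
      rcases hσ (j k) with h | h <;> rw [h] <;> norm_num
    exact_mod_cast mul_left_cancel₀ h5 h4
  · intro t ht
    have key : ∀ r : ℕ, r ≤ K → ∃ y ∈ X, (∀ k : Fin K, cx e c y (j k) =
        cx e c x (j k) - (if (k : ℕ) < r then (σ (j k) : ℝ) * t k else 0)) ∧ A - r * T ≤ s0 * cx e c y i0 := by
      intro r
      induction r with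
      | zero => exact fun _ => ⟨x, hx, fun k => by simp, by rw [hs1, hA]; simp⟩
      | succ r ih =>
        intro hr
        obtain ⟨y, hy, h1, h2⟩ := ih (by omega)
        obtain ⟨k, hk⟩ : ∃ k : Fin K, k = ⟨r, by omega⟩ := ⟨_, rfl⟩
        have hkr : (k : ℕ) = r := by rw [hk]
        have h3 := h1 k
        rw [if_neg (by omega), sub_zero] at h3
        have htk : (t k : ℝ) ≤ T := by exact_mod_cast ht k
        have hrK : ((r : ℝ) + 1) * T ≤ K * T := by
          refine mul_le_mul_of_nonneg_right ?_ (by positivity)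
          exact_mod_cast hr
        have h4 := hX.str _ (F.rt_mem (hj1 k) hs0 (hσ (j k))) y hy (t k) (by
          rw [F.co_rt (hj1 k) hs0 (hσ (j k)), h3, hσ1 (j k)]
          have : 0 ≤ |cx e c x (j k)| := abs_nonneg _
          linarith)
        refine ⟨_, h4, fun l => ?_, ?_⟩
        · rw [F.cx_sub_smul, h1 l, if_neg (hj1 l)]
          by_cases hl : l = k
          · subst hl
            rw [if_neg (show ¬ (l : ℕ) < r by omega), if_pos (show (l : ℕ) < r + 1 by omega), if_pos rfl]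
            ring
          · have hl' : (l : ℕ) ≠ r := fun h => hl (Fin.ext (h.trans hkr.symm))
            have hl2 : j k ≠ j l := fun h => hl (hj h).symm
            rw [if_neg hl2]
            by_cases h5 : (l : ℕ) < r
            · rw [if_pos h5, if_pos (by omega)]; ring
            · rw [if_neg h5, if_neg (by omega)]; ring
        · rw [F.cx_sub_smul, if_pos rfl, if_neg (hj1 k).symm]
          have h5 : (s0 : ℝ) * s0 = 1 := by rcases hs0 with h | h <;> rw [h] <;> norm_num
          have h6 : (s0 : ℝ) * (cx e c y i0 - t k * (s0 * 1 + σ (j k) * 0)) = s0 * cx e c y i0 - (s0 * s0) * t k := by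
            ring
          rw [h6, h5]
          push_cast
          linarith
    obtain ⟨y, hy, h1, _⟩ := key K le_rfl
    exact ⟨y, hy, fun k => by rw [h1 k, if_pos k.isLt]⟩

/-- sign changes -/
theorem choose_half (F : Fr Φ m e c d) (hX : Sat Φ X) {x : E} (hx : x ∈ X) (h0 : ∀ i, cx e c x i ≠ 0) {r : ℕ}
    (hr : 2 * r ≤ m) : m.choose (2 * r) ≤ X.card := by
  classical
  let P : Finset (Fin m) → Prop := fun S => ∃ y ∈ X, ∀ k, cx e c y k = if k ∈ S then -cx e c x k else cx e c x k
  have hstep : ∀ S, P S → ∀ i ∈ S, ∀ j, j ∉ S → P (insert j (S.erase i)) := by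
    rintro S ⟨y, hy, hyc⟩ i hi j hj
    have hij : i ≠ j := by rintro rfl; exact hj hi
    obtain ⟨y', hy', hyc'⟩ := F.flip hX hy hij
    refine ⟨y', hy', fun k => ?_⟩
    rw [hyc' k, hyc k]
    by_cases hki : k = i
    · subst hki
      rw [if_pos (Or.inl rfl), if_pos hi, if_neg, neg_neg]
      simp [hij]
    · by_cases hkj : k = j
      · subst hkj
        rw [if_pos (Or.inr rfl), if_neg hj, if_pos (Finset.mem_insert_self _ _)]
      · rw [if_neg (by tauto)]
        have : k ∈ insert j (S.erase i) ↔ k ∈ S := by simp [hki, hkj]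
        simp only [this]
  have hstart : ∀ r, 2 * r ≤ m → ∃ S, S.card = 2 * r ∧ P S := by
    intro r
    induction r with
    | zero => exact fun _ => ⟨∅, rfl, x, hx, fun k => by simp⟩
    | succ r ih =>
      intro hr
      obtain ⟨S, hS, y, hy, hyc⟩ := ih (by omega)
      have h1 : 1 < (Finset.univ \ S).card := by
        have := Finset.card_sdiff_add_card_inter Finset.univ S
        rw [Finset.univ_inter, Finset.card_univ, Fintype.card_fin] at this
        omega
      obtain ⟨i, hi, j, hj, hij⟩ := Finset.one_lt_card.1 h1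
      have hi' := (Finset.mem_sdiff.1 hi).2
      have hj' := (Finset.mem_sdiff.1 hj).2
      obtain ⟨y', hy', hyc'⟩ := F.flip hX hy hij
      refine ⟨insert i (insert j S), ?_, y', hy', fun k => ?_⟩
      · rw [Finset.card_insert_of_notMem (by simp [hij, hi']), Finset.card_insert_of_notMem hj', hS]
        ring
      · rw [hyc' k, hyc k]
        by_cases hki : k = i
        · subst hki
          rw [if_pos (Or.inl rfl), if_neg hi', if_pos (Finset.mem_insert_self _ _)]
        · by_cases hkj : k = j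
          · subst hkj
            rw [if_pos (Or.inr rfl), if_neg hj', if_pos (Finset.mem_insert_of_mem (Finset.mem_insert_self _ _))]
          · rw [if_neg (by tauto)]
            have : k ∈ insert i (insert j S) ↔ k ∈ S := by simp [hki, hkj]
            simp only [this]
  obtain ⟨S, hS, hP⟩ := hstart r hr
  have hall := exch P S hP hS hstep
  refine choose_le X (2 * r) (fun y S => ∀ k, cx e c y k = if k ∈ S then -cx e c x k else cx e c x k) ?_
    (fun S hS => hall S hS)
  intro y S S' h1 h2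
  ext k
  have h3 := h1 k
  have h4 := h2 k
  rw [h3] at h4
  have h5 := h0 k
  by_cases hk : k ∈ S <;> by_cases hk' : k ∈ S' <;> simp only [hk, hk', if_true, if_false] at h4 ⊢
  · exact absurd (by linarith) h5
  · exact absurd (by linarith) h5

/-- the pairing with a coroot in coordinates -/
theorem co_bd (F : Fr Φ m e c d) {a : E} (ha : a ∈ Φ) :
    ∃ i j, ∀ x, |co a x| ≤ |cx e c x i| + |cx e c x j| := by
  have hc := F.pos
  have key : ∀ i j, i ≠ j → ∀ s t : ℤ, (s = 1 ∨ s = -1) → (t = 1 ∨ t = -1) → ∀ x : E,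
      |co (rt e c s t i j) x| ≤ |cx e c x i| + |cx e c x j| := by
    intro i j hij s t hs ht x
    rw [F.co_rt hij hs ht]
    refine (abs_add_le _ _).trans (add_le_add ?_ ?_)
    · rw [abs_mul]
      rcases hs with h | h <;> rw [h] <;> norm_num
    · rw [abs_mul]
      rcases ht with h | h <;> rw [h] <;> norm_num
  have key2 : ∀ (r : ℝ), 1 ≤ |r| → ∀ (i : Fin m) (x : E), |co ((r * c) • e i) x| ≤ |cx e c x i| + |cx e c x i| := by
    intro r hr i x
    have hr0 : r ≠ 0 := by
      rintro rfl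
      rw [abs_zero] at hr
      norm_num at hr
    have h1 : co ((r * c) • e i) x = 2 * cx e c x i / r := by
      unfold co cx
      rw [inner_smul_left, inner_smul_right, inner_smul_right, F.inner_e, if_pos rfl]
      simp only [conj_trivial]
      have := hc.ne'
      field_simp
    rw [h1, abs_div, abs_mul, abs_of_pos (by norm_num : (0 : ℝ) < 2), div_le_iff₀ (by linarith)]
    have := abs_nonneg (cx e c x i)
    nlinarith
  rcases (F.mem a).1 ha with ⟨i, j, hij, h⟩ | ⟨hd, i, h⟩
  · refine ⟨i, j, fun x => ?_⟩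
    rcases h with rfl | rfl | rfl
    · have := key i j hij 1 1 (Or.inl rfl) (Or.inl rfl) x
      simpa [rt] using this
    · have := key i j hij 1 (-1) (Or.inl rfl) (Or.inr rfl) x
      simpa [rt, sub_eq_add_neg] using this
    · rw [co_neg_left, abs_neg]
      have := key i j hij 1 1 (Or.inl rfl) (Or.inl rfl) x
      simpa [rt] using this
  · have hd1 : (1 : ℝ) ≤ |(d : ℝ)| := by
      have : 1 ≤ d := Nat.pos_of_ne_zero hd
      rw [abs_of_nonneg (by positivity)]
      exact_mod_cast this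
    refine ⟨i, i, fun x => ?_⟩
    rcases h with rfl | rfl
    · exact key2 d hd1 i x
    · rw [co_neg_left, abs_neg]
      exact key2 d hd1 i x

theorem sum_cx_le (F : Fr Φ m e c d) (i : Fin m) : ∑ g ∈ Φ, |cx e c g i| ≤ 4 * m := by
  classical
  rw [F.sum (fun g => |cx e c g i|) (fun a => by rw [cx_neg, abs_neg])]
  have hi : ∀ s : ℤ, (s = 1 ∨ s = -1) → ∀ p : Fin m × Fin m, |cx e c (rt e c 1 s p.1 p.2) i| ≤
      (if p.1 = i then 1 else 0) + (if p.2 = i then 1 else 0) := by
    intro s hs p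
    rw [F.cx_rt]
    refine (abs_add_le _ _).trans (add_le_add ?_ ?_)
    · split_ifs <;> norm_num
    · rcases hs with h | h <;> rw [h] <;> split_ifs <;> norm_num
  have h1 : ∑ p ∈ (Finset.univ : Finset (Fin m)).offDiag, (|cx e c (rt e c 1 1 p.1 p.2) i| +
      |cx e c (rt e c 1 (-1) p.1 p.2) i|) ≤ ∑ p ∈ (Finset.univ : Finset (Fin m)).offDiag,
        (2 * (if p.1 = i then (1 : ℝ) else 0) + 2 * (if p.2 = i then 1 else 0)) := by
    refine Finset.sum_le_sum fun p _ => ?_
    have h2 := hi 1 (Or.inl rfl) p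
    have h3 := hi (-1) (Or.inr rfl) p
    linarith
  rw [sum_off (fun p q => 2 * (if p = i then (1 : ℝ) else 0) + 2 * (if q = i then 1 else 0))] at h1
  simp only [Finset.sum_add_distrib, ← Finset.mul_sum, Finset.sum_const, Finset.card_univ, Fintype.card_fin,
    Finset.sum_ite_eq', Finset.mem_univ, if_true, nsmul_eq_mul] at h1
  have h2 : (if d = 0 then 0 else 2 * ∑ k, |cx e c (((d : ℝ) * c) • e k) i|) ≤ 4 := by
    split_ifs with hd
    · norm_num
    · have h3 : ∀ k, |cx e c (((d : ℝ) * c) • e k) i| = d * (if k = i then 1 else 0) := by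
        intro k
        rw [F.cx_long, abs_of_nonneg]
        split_ifs <;> positivity
      simp only [h3, ← Finset.mul_sum, Finset.sum_ite_eq', Finset.mem_univ, if_true]
      have h4 : (d : ℝ) ≤ 2 := by exact_mod_cast F.le
      linarith
  rw [Finset.sum_add_distrib]
  linarith

theorem qs_le (F : Fr Φ m e c d) {a : E} (ha : a ∈ Φ) : qs Φ a ≤ 4 * m := by
  obtain ⟨i, j, h⟩ := co_bd F ha
  have h1 : ∑ g ∈ Φ, |co a g| ≤ ∑ g ∈ Φ, (|cx e c g i| + |cx e c g j|) := Finset.sum_le_sum fun g _ => h g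
  rw [Finset.sum_add_distrib] at h1
  have h2 := sum_cx_le F i
  have h3 := sum_cx_le F j
  unfold qs
  have : (0 : ℝ) ≤ m := by positivity
  linarith

/-- integral weights with at most one box: the standard representations -/
theorem standard {l : E} (F : Fr Φ m e c d) (hX : Sat Φ X) (hm : 3 ≤ m) (hl : l ∈ X) (hl0 : l ≠ 0)
    (hsm : ∀ x ∈ X, ∃ z : Fin m → ℤ, (∀ i, cx e c x i = z i) ∧ ∑ i, |z i| ≤ 1) : TypeB Φ X ∨ TypeD Φ X := by
  classical
  have hm2 : 2 ≤ m := by omega
  have hform : ∀ x ∈ X, x = 0 ∨ ∃ i, x = c • e i ∨ x = -(c • e i) := by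
    intro x hx
    obtain ⟨w, hw, hw2⟩ := hsm x hx
    have hxsp := Sat.span27 hX hx
    have hxn := F.norm_eq hm2 hxsp w hw
    rcases small_z (by linarith : ∑ i, |w i| ≤ 2) with h0 | ⟨i, hi, hj'⟩ | ⟨i, hi, hj'⟩ | ⟨i, i', hii, hi, hi', hj'⟩
    · left
      have : (inner ℝ x x : ℝ) = 0 := by rw [hxn]; simp [h0]
      exact inner_self_eq_zero.1 this
    · exact Or.inr ⟨i, F.eq_single hm2 hxsp w hw hi hj'⟩
    · exfalso
      have h1 : |w i| ≤ ∑ i, |w i| := Finset.single_le_sum (fun k _ => abs_nonneg (w k)) (Finset.mem_univ i)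
      omega
    · exfalso
      have h1 : |w i| + |w i'| ≤ ∑ i, |w i| := by
        rw [← Finset.add_sum_erase _ _ (Finset.mem_univ i),
          ← Finset.add_sum_erase _ _ (Finset.mem_erase.2 ⟨hii.symm, Finset.mem_univ i'⟩)]
        have : 0 ≤ ∑ k ∈ (Finset.univ.erase i).erase i', |w k| := Finset.sum_nonneg fun k _ => abs_nonneg _
        linarith
      omega
  obtain ⟨k, hk⟩ := (hform l hl).resolve_left hl0
  have hall := F.all_single hX (k := k) (by
    rcases hk with h1 | h1
    · exact Or.inl (h1 ▸ hl)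
    · exact Or.inr (h1 ▸ hl))
  by_cases hd : d = 1
  · left
    refine ⟨m, e, F.on, c, F.pos, fun x => ⟨hform x, ?_⟩, fun a => ?_⟩
    · rintro (rfl | ⟨i, rfl | rfl⟩)
      · have h2 : ((d : ℝ) * c) • e k ∈ Φ := by
          rw [F.mem]
          exact Or.inr ⟨by omega, k, Or.inl rfl⟩
        have h3 := hX.str _ h2 _ (hall k) 1 (by
          have hc := F.pos
          unfold co
          rw [inner_smul_left, inner_smul_right, inner_smul_left, inner_smul_right, F.inner_e, if_pos rfl, hd]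
          simp only [conj_trivial]
          push_cast
          field_simp
          norm_num)
        rw [hd, Nat.cast_one, one_mul, one_smul, sub_self] at h3
        exact h3
      · exact hall i
      · exact hX.neg _ (hall i)
    · rw [F.mem a, hd]
      constructor
      · rintro (⟨i, j, hij, h1⟩ | ⟨_, i, h1⟩)
        · exact Or.inr ⟨i, j, hij, h1⟩
        · rw [Nat.cast_one, one_mul] at h1
          exact Or.inl ⟨i, h1⟩
      · rintro (⟨i, h1⟩ | ⟨i, j, hij, h1⟩)
        · refine Or.inr ⟨by norm_num, i, ?_⟩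
          rw [Nat.cast_one, one_mul]
          exact h1
        · exact Or.inl ⟨i, j, hij, h1⟩
  · right
    refine ⟨m, e, F.on, c, F.pos, hm, fun x => ⟨fun hx => ?_, ?_⟩, fun i j hij => ⟨?_, ?_, ?_⟩⟩
    · rcases hform x hx with rfl | h1
      · exfalso
        have h2 := hX.coset _ (hall k) _ hx
        rw [sub_zero] at h2
        obtain ⟨q, hq⟩ := F.parity hd h2
        have h3 : ∑ i, cx e c (c • e k) i = 1 := by
          simp only [F.cx_e, Finset.sum_ite_eq, Finset.mem_univ, if_true]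
        rw [h3] at hq
        have h4 : (1 : ℤ) = 2 * q := by exact_mod_cast hq
        omega
      · exact h1
    · rintro ⟨i, rfl | rfl⟩
      · exact hall i
      · exact hX.neg _ (hall i)
    · rw [F.mem]; exact Or.inl ⟨i, j, hij, Or.inl rfl⟩
    · rw [F.mem]; exact Or.inl ⟨i, j, hij, Or.inr (Or.inl rfl)⟩
    · rw [F.mem]; exact Or.inl ⟨i, j, hij, Or.inr (Or.inr rfl)⟩

/-- a weight with at least `K` boxes: many weights -/
theorem choose_int (F : Fr Φ m e c d) (hX : Sat Φ X) {K : ℕ} (hm : K + 2 ≤ m) {x : E} (hx : x ∈ X) (z : Fin m → ℤ)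
    (hz : ∀ i, cx e c x i = z i) (h3 : (K : ℤ) ≤ ∑ i, |z i|) : m.choose K ≤ X.card ∨ m.choose (K + 1) ≤ X.card := by
  obtain ⟨w, ⟨x', hx', hw⟩, hw1, hw2⟩ := core_bcd (K := K) hm
    (fun z => ∃ x ∈ X, ∀ i, cx e c x i = z i) (by
      rintro z ⟨x, hx, hz⟩ i j hij s t hs ht h1
      have h2 := hX.str _ (F.rt_mem hij hs ht) x hx 1 (by
        rw [F.co_rt hij hs ht, hz i, hz j]
        exact_mod_cast h1)
      rw [Nat.cast_one, one_smul] at h2
      refine ⟨_, h2, fun k => ?_⟩
      rw [F.cx_sub_rt, hz k]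
      unfold md
      by_cases hki : k = i
      · subst hki; simp [hij.symm]
      · by_cases hkj : k = j
        · subst hkj; simp [hki, hij]
        · simp [hki, hkj, Ne.symm hki, Ne.symm hkj]) z ⟨x, hx, hz⟩ h3
  rcases hw2 with hw2 | hw2
  · exact Or.inl (F.choose_of_small hX hx' w hw hw1 (k := K) (by rw [hw2]))
  · exact Or.inr (F.choose_of_small hX hx' w hw hw1 (k := K + 1) (by rw [hw2]; push_cast; rfl))

/-- many weights: smooth dimensions -/
theorem smooth_of_many (F : Fr Φ m e c d) {n : ℕ} {l v : E} (h : Wd Φ X n l v) {K D : ℕ} (hK : 0 < K)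
    (hm : K + 1 ≤ m) (hD : m ^ K ≤ D * n) : n ∈ SM K (2 ^ K * (2 ^ K * K ^ K + 4 ^ K * D)) := by
  intro p hp hd
  obtain ⟨a, ha, x, hx, hle⟩ := h.prime p hp hd
  obtain ⟨i, j, hij⟩ := co_bd F ha
  obtain ⟨i0, hi0⟩ : ∃ i0, |cx e c x i| ≤ |cx e c x i0| ∧ |cx e c x j| ≤ |cx e c x i0| := by
    rcases le_total |cx e c x i| |cx e c x j| with h1 | h1
    · exact ⟨j, h1, le_rfl⟩
    · exact ⟨i, le_rfl, h1⟩
  refine finish (A := |cx e c x i0|) (abs_nonneg _) ?_ hD ?_
  · refine (grow F h.sat hx i0 hK hm).trans ?_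
    refine mul_le_mul_of_nonneg_left ?_ (by positivity)
    exact_mod_cast h.card_le
  · have h1 := hij x
    have h2 := le_abs_self (co a x)
    have h3 := qs_le F ha
    linarith [hi0.1, hi0.2]

end

/-- **Types `B`, `C`, `D` of large rank.** -/
theorem large_fr (K : ℕ) (hK : 2 ≤ K) : ∃ R C : ℕ, ∀ {E : Type*} [NormedAddCommGroup E] [InnerProductSpace ℝ E]
    {Φ X : Finset E} {m n : ℕ} {l v : E} {e : Fin m → E} {c : ℝ} {d : ℕ}, Wd Φ X n l v → Fr Φ m e c d → R ≤ m → 0 < n →
    TypeB Φ X ∨ TypeD Φ X ∨ n ∈ SM K C ∨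
      (m ^ 2 ≤ 4 * n ∧ ∃ k : Fin m → ℤ, (∀ i, (inner ℝ l (e i) : ℝ) = c * k i) ∧ ∑ i, |k i| < K) := by
  obtain ⟨D, hD⟩ : ∃ D, D = 4 ^ K * (2 * K).factorial := ⟨_, rfl⟩
  refine ⟨4 * K + 5, 2 ^ K * (2 ^ K * K ^ K + 4 ^ K * D), ?_⟩
  intro E _ _ Φ X m n l v e c d h F hm _
  have hbig : ∀ r, K ≤ r → r ≤ 2 * K → m.choose r ≤ X.card → n ∈ SM K (2 ^ K * (2 ^ K * K ^ K + 4 ^ K * D)) := by
    intro r h1 h2 h3
    refine smooth_of_many F h (by omega) (by omega) ?_
    rw [hD]
    exact many (by omega) (by omega) h1 h2 (h3.trans h.card_le)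
  by_cases hS : n ∈ SM K (2 ^ K * (2 ^ K * K ^ K + 4 ^ K * D))
  · exact Or.inr (Or.inr (Or.inl hS))
  have hsm : ∀ x ∈ X, ∃ z : Fin m → ℤ, (∀ i, cx e c x i = z i) ∧ ∑ i, |z i| < K := by
    intro x hx
    rcases F.int_or h.sat (by omega) hx with ⟨z, hz⟩ | ⟨z, hz⟩
    · refine ⟨z, hz, ?_⟩
      by_contra h3
      push Not at h3
      rcases choose_int F h.sat (by omega) hx z hz h3 with h4 | h4
      · exact hS (hbig K le_rfl (by omega) h4)
      · exact hS (hbig (K + 1) (by omega) (by omega) h4)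
    · exfalso
      refine hS (hbig (2 * K) (by omega) le_rfl (choose_half F h.sat hx (fun i h => ?_) (by omega)))
      rw [hz i] at h
      have h1 : (2 * z i + 1 : ℤ) = 0 := by
        have : ((2 * z i + 1 : ℤ) : ℝ) = 0 := by push_cast; linarith
        exact_mod_cast this
      omega
  by_cases hone : ∀ x ∈ X, ∃ z : Fin m → ℤ, (∀ i, cx e c x i = z i) ∧ ∑ i, |z i| ≤ 1
  · rcases standard F h.sat (by omega) h.l_mem h.l_ne hone with h1 | h1
    · exact Or.inl h1
    · exact Or.inr (Or.inl h1)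
  refine Or.inr (Or.inr (Or.inr ⟨?_, ?_⟩))
  · push Not at hone
    obtain ⟨x, hx, hx2⟩ := hone
    obtain ⟨z, hz, _⟩ := hsm x hx
    have h2 := hx2 z hz
    have hch : m.choose 2 ≤ n := by
      rcases choose_int F h.sat (K := 2) (by omega) hx z hz (by push_cast; omega) with h4 | h4
      · exact h4.trans h.card_le
      · refine le_trans ?_ (h4.trans h.card_le)
        have h1 := Nat.choose_succ_right_eq m 2
        have h2 : 3 ≤ m - 2 := by omega
        nlinarith
    have h3 := choose_two m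
    obtain ⟨t, rfl⟩ : ∃ t, m = t + 2 := ⟨m - 2, by omega⟩
    have h4 : t + 2 - 1 = t + 1 := by omega
    rw [h4] at h3
    nlinarith
  · obtain ⟨z, hz, hz2⟩ := hsm l h.l_mem
    refine ⟨z, fun i => ?_, hz2⟩
    have h1 := hz i
    unfold cx at h1
    rw [div_eq_iff F.pos.ne'] at h1
    rw [h1]; ring

end PW
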