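import Pool.Agent.Helper81.PW.LargeA
import Pool.Agent.Helper3.PW.Smooth
import Pool.Agent.Helper3.PW.Dt
import Pool.Agent.Helper94.PW.Few
import Pool.Agent.Helper43.PW.DimA
import Pool.Agent.Helper43.PW.DimD
import Pool.Agent.Helper21.TF.Long
import Pool.Agent.Helper3.PF.Comb

/-!
Project PW (MP_b8862a_ag): the exceptional set has density zero.
-/

set_option linter.unusedSectionVars false

open Module PF TF

namespace PW

theorem mem_cn {S : Set ℕ} {X n : ℕ} {i : DecidablePred (· ∈ S)} :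
    n ∈ ((Finset.Icc 1 X).filter (· ∈ S)) ↔ n ∈ Finset.Icc 1 X ∧ n ∈ S := Finset.mem_filter

theorem cn_mono {S T : Set ℕ} {X : ℕ} (h : ∀ n, 0 < n → n ∈ S → n ∈ T) : cn S X ≤ cn T X := by
  classical
  unfold cn
  refine Finset.card_le_card fun n hn => ?_
  rw [Finset.mem_filter, Finset.mem_Icc] at hn ⊢
  exact ⟨hn.1, h n (by omega) hn.2⟩

theorem cn_union {S T : Set ℕ} {X : ℕ} : cn (S ∪ T) X ≤ cn S X + cn T X := by
  classical
  unfold cn
  refine (Finset.card_le_card ?_).trans (Finset.card_union_le _ _)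
  intro n hn
  obtain ⟨h1, h2⟩ := mem_cn.1 hn
  refine Finset.mem_union.2 ?_
  rcases h2 with h | h
  · exact Or.inl (Finset.mem_filter.2 ⟨h1, h⟩)
  · exact Or.inr (Finset.mem_filter.2 ⟨h1, h⟩)

theorem Dt.mono {M M' n : ℕ} (h : Dt M n) (hM : M ≤ M') : Dt M' n := by
  obtain ⟨r, N, f, b, s, h1, h2, h3, h4, h5⟩ := h
  exact ⟨r, N, f, b, s, h1, h2.trans hM, h3.trans hM, fun a j => (h4 a j).trans (by omega), h5⟩

theorem SM.mono {K C C' n : ℕ} (h : n ∈ SM K C) (hC : C ≤ C') : n ∈ SM K C' := fun p hp hd =>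
  (h p hp hd).trans (Nat.mul_le_mul_right _ hC)

section sc

variable {E : Type*} [NormedAddCommGroup E] [InnerProductSpace ℝ E] {Φ X : Finset E} {c : ℝ} (hc : 0 < c)

include hc

theorem Ps_sc (v : E) : Ps (PF.sc c Φ) (c • v) = PF.sc c (Ps Φ v) := by
  ext a
  rw [mem_sc]
  unfold Ps
  rw [Finset.mem_filter, mem_sc]
  constructor
  · rintro ⟨⟨x, hx, rfl⟩, h⟩
    refine ⟨x, ?_, rfl⟩
    rw [Finset.mem_filter]
    refine ⟨hx, ?_⟩
    rw [inner_smul_left, inner_smul_right] at h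
    simp only [conj_trivial] at h
    by_contra hcon
    push Not at hcon
    have h1 : c * (inner ℝ v x : ℝ) ≤ 0 := mul_nonpos_of_nonneg_of_nonpos hc.le hcon
    have h2 : c * (c * (inner ℝ v x : ℝ)) ≤ 0 := mul_nonpos_of_nonneg_of_nonpos hc.le h1
    linarith
  · rintro ⟨x, hx, rfl⟩
    rw [Finset.mem_filter] at hx
    refine ⟨⟨x, hx.1, rfl⟩, ?_⟩
    rw [inner_smul_left, inner_smul_right]
    simp only [conj_trivial]
    exact mul_pos hc (mul_pos hc hx.2)

theorem TypeA.sc (h : TypeA Φ) : TypeA (PF.sc c Φ) := by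
  obtain ⟨a, ha⟩ := h
  refine ⟨c • a, fun y => ?_⟩
  rw [mem_sc]
  constructor
  · rintro ⟨x, hx, rfl⟩
    rcases (ha x).1 hx with rfl | rfl
    · exact Or.inl rfl
    · right
      rw [smul_neg]
  · rintro (rfl | rfl)
    · exact ⟨a, (ha a).2 (Or.inl rfl), rfl⟩
    · exact ⟨-a, (ha (-a)).2 (Or.inr rfl), by rw [smul_neg]⟩

theorem Wd.sc {n : ℕ} {l v : E} (h : Wd Φ X n l v) : Wd (PF.sc c Φ) (PF.sc c X) n (c • l) (c • v) where
  rs := h.rs.sc hc
  sat := h.sat.sc hc
  card_le := by rw [card_sc hc]; exact h.card_le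
  l_mem := (smul_mem_sc hc).2 h.l_mem
  l_ne := smul_ne_zero hc.ne' h.l_ne
  l_max := by
    intro x hx
    obtain ⟨x', hx', rfl⟩ := mem_sc.1 hx
    rw [inner_smul_left, inner_smul_right, inner_smul_left, inner_smul_right]
    simp only [conj_trivial]
    rw [← mul_assoc, ← mul_assoc]
    exact mul_le_mul_of_nonneg_left (h.l_max x' hx') (mul_pos hc hc).le
  reg := by
    intro a ha
    obtain ⟨a', ha', rfl⟩ := mem_sc.1 ha
    rw [inner_smul_left, inner_smul_right]
    simp only [conj_trivial]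
    exact mul_ne_zero hc.ne' (mul_ne_zero hc.ne' (h.reg a' ha'))
  v_eq := by
    classical
    conv_lhs => rw [h.v_eq]
    rw [Ps_sc hc, PF.sc, Finset.sum_image (fun x _ y _ h => smul_inj' hc h), Finset.smul_sum]
  dom := by
    intro a ha
    rw [Ps_sc hc] at ha
    obtain ⟨a', ha', rfl⟩ := mem_sc.1 ha
    rw [inner_smul_left, inner_smul_right]
    simp only [conj_trivial]
    exact mul_nonneg hc.le (mul_nonneg hc.le (h.dom a' ha'))
  dim := by
    classical
    rw [Ps_sc hc, PF.sc, Finset.prod_image (fun x _ y _ h => smul_inj' hc h),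
      Finset.prod_image (fun x _ y _ h => smul_inj' hc h)]
    have h1 : ∀ a ∈ Ps Φ v, (inner ℝ (c • v) (c • a) : ℝ) = (c * c) * inner ℝ v a := by
      intro a _
      rw [inner_smul_left, inner_smul_right]
      simp only [conj_trivial]
      ring
    have h2 : ∀ a ∈ Ps Φ v, (inner ℝ ((2 : ℝ) • c • l + c • v) (c • a) : ℝ) = (c * c) * inner ℝ ((2 : ℝ) • l + v) a := by
      intro a _
      rw [smul_comm, ← smul_add, inner_smul_left, inner_smul_right]
      simp only [conj_trivial]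
      ring
    rw [Finset.prod_congr rfl h1, Finset.prod_congr rfl h2]
    generalize c * c = q
    rw [Finset.prod_mul_distrib, Finset.prod_mul_distrib, ← h.dim]
    ring
  prime := by
    intro p hp hd
    obtain ⟨a, ha, x, hx, hle⟩ := h.prime p hp hd
    exact ⟨c • a, (smul_mem_sc hc).2 ha, c • x, (smul_mem_sc hc).2 hx, by rw [co_sc hc, qs_sc hc]; exact hle⟩
  dt := by
    intro hA
    rw [card_sc hc]
    exact h.dt fun h' => hA (TypeA.sc hc h')

end sc

/-- **The exceptional set has density zero.** -/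
theorem ex_zero : Zero Ex := by
  intro K0
  obtain ⟨K, hK⟩ : ∃ K, K = K0 + 1 := ⟨_, rfl⟩
  obtain ⟨R1, C1, h1⟩ := large_fr.{0} (4 * K) (by omega)
  obtain ⟨R2, C2, h2⟩ := large_frA.{0} (4 * K) (by omega)
  obtain ⟨M, hM⟩ := classical.{0} (R1 + R2 + 4 * K)
  obtain ⟨X1, hX1⟩ := smooth (4 * K) (C1 + C2) (by omega)
  obtain ⟨X2, hX2⟩ := dt_zero M (6 * K)
  obtain ⟨X3, hX3⟩ := fewD_zero (4 * K) (6 * K)
  obtain ⟨X4, hX4⟩ := fewA_zero (2 * (4 * K)) (6 * K)
  have hsub : ∀ n, 0 < n → n ∈ Ex →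
      n ∈ (({n | Dt M n} ∪ SM (4 * K) (C1 + C2)) ∪ FewD (4 * K)) ∪ FewA (2 * (4 * K)) := by
    rintro n hn ⟨ι, _, Φ, X, l, v, h, hA, hB, hD⟩
    by_cases hcard : Φ.card < M
    · exact Or.inl (Or.inl (Or.inl ((h.dt hA).mono hcard.le)))
    · push Not at hcard
      obtain ⟨c, hc, hNRS⟩ := exists_NRS h.rs
      have h' := h.sc hc
      obtain ⟨m, hm, hF⟩ := hM (PF.sc c Φ) hNRS (by rw [card_sc hc]; exact hcard)
      rcases hF with ⟨u, hu⟩ | ⟨e, c', d, he⟩
      · rcases h2 h' hu (by omega) hn with h3 | ⟨h3, k, hk, hk2⟩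
        · exact Or.inl (Or.inl (Or.inr (SM.mono h3 (by omega))))
        · obtain ⟨x, hx1, hx2, hx3, hx4⟩ := dim_frA h' hu (by omega) hk
          exact Or.inr ⟨m, x, h3, by rw [hx1]; exact_mod_cast hk2, hx2, hx3, hx4⟩
      · rcases h1 h' he (by omega) hn with h3 | h3 | h3 | ⟨h3, k, hk, hk2⟩
        · exact absurd (h3.of_sc hc) hB
        · exact absurd (h3.of_sc hc) hD
        · exact Or.inl (Or.inl (Or.inr (SM.mono h3 (by omega))))
        · obtain ⟨x, hx1, hx2, hx3, hx4⟩ := dim_fr h' he (by omega) hk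
          exact Or.inl (Or.inr ⟨d, m, x, he.le, by omega, h3, by rw [hx1]; exact_mod_cast hk2, hx2, hx3, hx4⟩)
  refine ⟨X1 + X2 + X3 + X4, fun X hX => ?_⟩
  have e0 : cn Ex X ≤ cn {n | Dt M n} X + cn (SM (4 * K) (C1 + C2)) X + cn (FewD (4 * K)) X + cn (FewA (2 * (4 * K))) X :=
    (cn_mono hsub).trans (cn_union.trans (Nat.add_le_add_right (cn_union.trans (Nat.add_le_add_right cn_union _)) _))
  have e1 := hX1 X (by omega)
  have e2 := hX2 X (by omega)
  have e3 := hX3 X (by omega)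
  have e4 := hX4 X (by omega)
  have e5 : K0 * cn Ex X ≤ K * cn Ex X := Nat.mul_le_mul_right _ (by omega)
  have e6 := Nat.mul_le_mul_left K e0
  generalize cn Ex X = a at *
  generalize cn {n | Dt M n} X = a1 at *
  generalize cn (SM (4 * K) (C1 + C2)) X = a2 at *
  generalize cn (FewD (4 * K)) X = a3 at *
  generalize cn (FewA (2 * (4 * K))) X = a4 at *
  clear hK hM h1 h2 hX1 hX2 hX3 hX4 hsub e0 hX
  nlinarith

end PW
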