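import Pool.Agent.Helper81.PW.Base
import Pool.Agent.Helper81.TF.Lie

/-!
Project PW (MP_b8862a_ag): the Lie side.
-/

set_option linter.unusedSectionVars false

open Module LieModule LieAlgebra LieAlgebra.IsKilling AddMonoidAlgebra MTP.MF PF PF.W PF.L PF.CC TF TF.L

namespace PW

variable {K : Type*} [Field K] [CharZero K] [IsAlgClosed K]
  {L : Type*} [LieRing L] [LieAlgebra K L] [FiniteDimensional K L] [IsKilling K L]
  {H : LieSubalgebra K L} [H.IsCartanSubalgebra]
  {V : Type*} [AddCommGroup V] [Module K V] [FiniteDimensional K V]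
  [LieRingModule L V] [LieModule K L V] {I : Type*} [Fintype I] {ω : LinearMap.BilinForm K V}

/-- twice the pairing of half the sum of the positive roots with a coroot -/
theorem two_rho (b : (rootSystem H).Base) (α : H.root) :
    2 * rho b (coroot α.1) = ((∑ β ∈ pos b, PF.CC.rt (rootSystem H) β α : ℤ) : K) := by
  have h5 : rho b (coroot α.1) = 2⁻¹ * ∑ β ∈ pos b, (PF.CC.rt (rootSystem H) β α : K) := by
    unfold rho
    rw [LinearMap.smul_apply, smul_eq_mul, LinearMap.sum_apply]
    congr 1
    exact Finset.sum_congr rfl fun β _ => root_spec β α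
  rw [h5, ← mul_assoc, mul_inv_cancel₀ two_ne_zero, one_mul]
  push_cast
  rfl

/-- a base of a root system which is not of rank one has two elements -/
theorem two_le_card [Nonempty H.root] [(rootSystem H).IsIrreducible] (b : (rootSystem H).Base)
    (hA : ¬ TypeA (Ph (rootSystem H))) : 2 ≤ b.support.card := by
  classical
  by_contra hcon
  push Not at hcon
  have h1 : b.support.Nonempty := b.support_nonempty
  have h2 : b.support.card = 1 := le_antisymm (by omega) (Finset.card_pos.2 h1)
  obtain ⟨j, hj⟩ := Finset.card_eq_one.1 h2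
  apply hA
  refine ⟨vec (PF.CC.rt (rootSystem H) j), ?_⟩
  have hall : ∀ α : H.root, PF.CC.rt (rootSystem H) α = PF.CC.rt (rootSystem H) j ∨
      PF.CC.rt (rootSystem H) α = -PF.CC.rt (rootSystem H) j := by
    intro α
    have h3 : ¬ LinearIndependent K ![(rootSystem H).root α, (rootSystem H).root j] := by
      intro hli
      rw [LinearIndependent.pair_iff] at hli
      obtain ⟨f, -, hf⟩ := b.exists_root_eq_sum_nat_or_neg α
      rw [hj] at hf
      simp only [Finset.sum_singleton] at hf
      rcases hf with hf | hf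
      · have h4 := hli 1 (-(f j : K)) (by
          rw [hf, one_smul, neg_smul, Nat.cast_smul_eq_nsmul, add_neg_cancel])
        exact one_ne_zero h4.1
      · have h4 := hli 1 ((f j : K)) (by
          rw [hf, one_smul, Nat.cast_smul_eq_nsmul, neg_add_cancel])
        exact one_ne_zero h4.1
    rcases RootPairing.IsReduced.eq_or_eq_neg (P := rootSystem H) α j h3 with h4 | h4
    · left
      have h5 : α = j := (rootSystem H).root.injective h4
      rw [h5]
    · right
      funext β
      have h5 : ((PF.CC.rt (rootSystem H) α β : ℤ) : K) = ((-PF.CC.rt (rootSystem H) j β : ℤ) : K) := by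
        rw [← root_spec, h4, LinearMap.neg_apply, root_spec]
        push_cast
        rfl
      exact_mod_cast h5
  intro y
  rw [mem_Ph]
  constructor
  · rintro ⟨α, rfl⟩
    rcases hall α with h | h
    · left
      rw [h]
    · right
      rw [h, vec_neg]
  · rintro (rfl | rfl)
    · exact ⟨j, rfl⟩
    · refine ⟨(rootSystem H).reflectionPerm j j, ?_⟩
      rw [← vec_neg]
      congr 1
      funext β
      rw [rt_neg]
      rfl

theorem exists_wd (B : WB (V := V) H I) [Nonempty I] [Nonempty H.root] [(rootSystem H).IsIrreducible]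
    (hirr : ∀ W : Submodule K V, (∀ x : L, ∀ u ∈ W, ⁅x, u⁆ ∈ W) → W = ⊥ ∨ W = ⊤)
    (hfaith : ∀ x : L, (∀ u : V, ⁅x, u⁆ = 0) → x = 0)
    (hnd : ω.Nondegenerate) (hsk : ∀ (x : L) (u v : V), ω ⁅x, u⁆ v = - ω u ⁅x, v⁆) :
    ∃ l v : EuclideanSpace ℝ H.root, Wd (PF.CC.Ph (rootSystem H)) (PF.CC.Xw B) (Fintype.card I) l v := by
  classical
  obtain ⟨b⟩ : Nonempty (rootSystem H).Base := (rootSystem H).nonempty_base
  obtain ⟨t, htb, htdom, hdim⟩ := dimension B hirr hfaith b
  have hsat := sat B hirr hnd hsk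
  have hdom : ∀ j ∈ b.support, 0 ≤ wt B t j := by
    intro j hj
    obtain ⟨k, hk⟩ := htdom j hj
    have h1 : ((wt B t j : ℤ) : K) = ((k : ℤ) : K) := by
      rw [← wt_spec, hk]
      push_cast
      rfl
    have h2 : wt B t j = k := by exact_mod_cast h1
    omega
  -- expansions of the positive coroots
  have hc : ∀ α ∈ pos b, ∃ f : H.root → ℕ, coroot α.1 = ∑ j ∈ b.support, (f j : K) • coroot j.1 ∧
      0 < ∑ j ∈ b.support, f j := by
    intro α hα
    have : b.IsPos α := by simpa [pos] using hα
    obtain ⟨f, hf, hf'⟩ := coroot_eq_sum b this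
    exact ⟨f, hf, hf'⟩
  choose! f hf hf' using hc
  have e1 : ∀ α ∈ pos b, rho b (coroot α.1) = ((∑ j ∈ b.support, f α j : ℕ) : K) := by
    intro α hα
    rw [hf α hα, map_sum, Nat.cast_sum]
    refine Finset.sum_congr rfl fun j hj => ?_
    have : rho b (coroot j.1) = 1 := rho_coroot b hj
    rw [map_smul, this, smul_eq_mul, mul_one]
  obtain ⟨R, hR⟩ : ∃ R : H.root → ℤ, R = fun α => ∑ β ∈ pos b, PF.CC.rt (rootSystem H) β α := ⟨_, rfl⟩
  have hRW : Wt (rootSystem H) R := by
    have h1 : ∀ α : H.root, ((2 : K) • rho b : Dual K H) (coroot α.1) = (R α : K) := by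
      intro α
      rw [LinearMap.smul_apply, smul_eq_mul, two_rho, hR]
    exact wt_dual h1
  have hR1 : ∀ α ∈ pos b, R α = 2 * ((∑ j ∈ b.support, f α j : ℕ) : ℤ) := by
    intro α hα
    have h1 : ((R α : ℤ) : K) = ((2 * ((∑ j ∈ b.support, f α j : ℕ) : ℤ) : ℤ) : K) := by
      have h2 := two_rho b α
      rw [e1 α hα] at h2
      rw [hR, ← h2]
      push_cast
      rfl
    exact_mod_cast h1
  have hRpos : ∀ α ∈ pos b, 0 < R α := by
    intro α hα
    rw [hR1 α hα]
    have := hf' α hα
    omega
  have hneg : ∀ α : H.root, R ((rootSystem H).reflectionPerm α α) = - R α := by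
    intro α
    rw [hRW α α, rt_self]
    ring
  have hRneg : ∀ α, α ∉ pos b → R α < 0 := by
    intro α hα
    have h1 : b.IsPos ((rootSystem H).reflectionPerm α α) := by
      have h2 := RootPairing.Base.IsPos.neg_iff_not b α
      refine h2.2 ?_
      intro h3
      apply hα
      simpa [pos] using h3
    have h2 := hRpos ((rootSystem H).reflectionPerm α α) (by simpa [pos] using h1)
    rw [hneg] at h2
    omega
  obtain ⟨v, hv⟩ : ∃ v : EuclideanSpace ℝ H.root, v = vec R := ⟨_, rfl⟩
  have hin : ∀ (g : H.root → ℤ), Wt (rootSystem H) g → ∀ j : H.root,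
      (inner ℝ (vec g) (vec (PF.CC.rt (rootSystem H) j)) : ℝ) =
      (g j : ℝ) * (((∑ k, PF.CC.rt (rootSystem H) j k * PF.CC.rt (rootSystem H) j k : ℤ) : ℝ) / 2) := by
    intro g hg j
    have h1 := two_sum (rootSystem H) hg j
    rw [inner_vec]
    have h2 : (2 : ℝ) * ((∑ k, g k * PF.CC.rt (rootSystem H) j k : ℤ) : ℝ) =
      (g j : ℝ) * ((∑ k, PF.CC.rt (rootSystem H) j k * PF.CC.rt (rootSystem H) j k : ℤ) : ℝ) := by exact_mod_cast h1
    linarith
  have hN : ∀ j : H.root, (0 : ℝ) < ((∑ k, PF.CC.rt (rootSystem H) j k * PF.CC.rt (rootSystem H) j k : ℤ) : ℝ) / 2 :=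
    fun j => by
      have : (0 : ℝ) < ((∑ k, PF.CC.rt (rootSystem H) j k * PF.CC.rt (rootSystem H) j k : ℤ) : ℝ) := by
        exact_mod_cast sum_pos (rootSystem H) j
      linarith
  have hPs : Ps (Ph (rootSystem H)) v = (pos b).image fun α => vec (PF.CC.rt (rootSystem H) α) := by
    ext a
    unfold Ps
    rw [Finset.mem_filter, mem_Ph, Finset.mem_image]
    constructor
    · rintro ⟨⟨α, rfl⟩, h2⟩
      refine ⟨α, ?_, rfl⟩
      by_contra h3
      have h4 := hRneg α h3
      rw [hv, hin R hRW] at h2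
      have h5 : (R α : ℝ) < 0 := by exact_mod_cast h4
      nlinarith [hN α]
    · rintro ⟨α, hα, rfl⟩
      refine ⟨⟨α, rfl⟩, ?_⟩
      rw [hv, hin R hRW]
      have h5 : (0 : ℝ) < (R α : ℝ) := by exact_mod_cast hRpos α hα
      exact mul_pos h5 (hN α)
  have hinj : Set.InjOn (fun α : H.root => vec (PF.CC.rt (rootSystem H) α)) (pos b : Set H.root) :=
    fun α _ β _ h => rt_inj (rootSystem H) (vec_inj h)
  refine ⟨vec (wt B t), v, ⟨rs (rootSystem H), hsat, card_Xw B, (mem_Xw B).2 ⟨t, rfl⟩, ?_,
    fun x hx => norm_le B hsat b htb hdom hx, ?_, ?_, ?_, ?_, ?_, ?_⟩⟩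
  · intro h0
    obtain ⟨α⟩ := ‹Nonempty H.root›
    obtain ⟨x, hx, hx0⟩ := exists_ne_zero' B hfaith α
    have h1 := norm_le B hsat b htb hdom hx
    rw [h0, inner_zero_left] at h1
    exact hx0 (inner_self_eq_zero.1 (le_antisymm h1 real_inner_self_nonneg))
  · intro a ha
    obtain ⟨α, rfl⟩ := (mem_Ph _).1 ha
    rw [hv, hin R hRW]
    refine mul_ne_zero ?_ (hN α).ne'
    by_cases hα : α ∈ pos b
    · exact_mod_cast (hRpos α hα).ne'
    · exact_mod_cast (hRneg α hα).ne
  · rw [hPs, Finset.sum_image hinj, hv, hR]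
    ext α
    simp only [vec_apply, WithLp.ofLp_sum, Finset.sum_apply]
    push_cast
    rfl
  · intro a ha
    rw [hPs, Finset.mem_image] at ha
    obtain ⟨α, hα, rfl⟩ := ha
    rw [hin _ (wt_wt B t)]
    have h1 := dom_pos b (fun β => wt_spec B t β) hdom hα
    have h2 : (0 : ℝ) ≤ (wt B t α : ℝ) := by exact_mod_cast h1
    exact mul_nonneg h2 (hN α).le
  · rw [hPs, Finset.prod_image hinj, Finset.prod_image hinj]
    have h1 : ∀ α ∈ pos b, (inner ℝ ((2 : ℝ) • vec (wt B t) + v) (vec (PF.CC.rt (rootSystem H) α)) : ℝ) =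
        ((2 * wt B t α + R α : ℤ) : ℝ) * (((∑ k, PF.CC.rt (rootSystem H) α k * PF.CC.rt (rootSystem H) α k : ℤ) : ℝ) / 2) := by
      intro α _
      rw [inner_add_left, inner_smul_left, hv, hin R hRW, hin _ (wt_wt B t)]
      simp only [conj_trivial]
      push_cast
      ring
    have h2 : ∀ α ∈ pos b, (inner ℝ v (vec (PF.CC.rt (rootSystem H) α)) : ℝ) =
        ((R α : ℤ) : ℝ) * (((∑ k, PF.CC.rt (rootSystem H) α k * PF.CC.rt (rootSystem H) α k : ℤ) : ℝ) / 2) := by
      intro α _
      rw [hv, hin R hRW]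
    rw [Finset.prod_congr rfl h1, Finset.prod_congr rfl h2, Finset.prod_mul_distrib, Finset.prod_mul_distrib, ← mul_assoc]
    congr 1
    have h3 : (Fintype.card I : ℤ) * ∏ α ∈ pos b, R α = ∏ α ∈ pos b, (2 * wt B t α + R α) := by
      have h4 : (((Fintype.card I : ℤ) * ∏ α ∈ pos b, R α : ℤ) : K) =
          ((∏ α ∈ pos b, (2 * wt B t α + R α) : ℤ) : K) := by
        have h5 : ∀ α ∈ pos b, ((R α : ℤ) : K) = 2 * rho b (coroot α.1) := by
          intro α _
          rw [two_rho, hR]
        have h6 : ∀ α ∈ pos b, ((2 * wt B t α + R α : ℤ) : K) = 2 * (B.w t + rho b) (coroot α.1) := by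
          intro α hα
          rw [Int.cast_add, h5 α hα, LinearMap.add_apply, wt_spec]
          push_cast
          ring
        rw [Int.cast_mul, Int.cast_prod, Int.cast_prod, Finset.prod_congr rfl h5, Finset.prod_congr rfl h6,
          Finset.prod_mul_distrib, Finset.prod_mul_distrib, ← hdim]
        push_cast
        ring
      exact_mod_cast h4
    exact_mod_cast h3
  · intro p hp hd
    obtain ⟨α, i, k, hk, hle⟩ := PF.L.exists_large B hirr hfaith hp hd ‹Nonempty I›
    refine ⟨vec (PF.CC.rt (rootSystem H) α), (mem_Ph _).2 ⟨α, rfl⟩, vec (wt B i), (mem_Xw B).2 ⟨i, rfl⟩, ?_⟩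
    have h1 : wt B i α = k := by
      have h2 : ((wt B i α : ℤ) : K) = k := by rw [← wt_spec, hk]
      exact_mod_cast h2
    rw [co_vec _ (wt_wt B i) α, qs_eq, h1]
    have h2 : ((p : ℚ) : ℝ) ≤ ((k + (1 / 4) * ∑ g : H.root, |((rootSystem H).pairingIn ℤ g α : ℚ)| : ℚ) : ℝ) := by
      exact_mod_cast hle
    push_cast at h2
    exact h2
  · intro hA
    have h2 := two_le_card b hA
    have hcardPh : (Ph (rootSystem H)).card = Fintype.card H.root := by
      unfold Ph
      rw [Finset.card_image_of_injective _ fun α β h => rt_inj (rootSystem H) (vec_inj h), Finset.card_univ]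
    choose! k hk using htdom
    obtain ⟨er⟩ : Nonempty (Fin b.support.card ≃ b.support) := ⟨b.support.equivFin.symm⟩
    obtain ⟨eN⟩ : Nonempty (Fin (pos b).card ≃ pos b) := ⟨(pos b).equivFin.symm⟩
    have hsup : ∀ j ∈ b.support, j ∈ pos b := by
      intro j hj
      have := RootPairing.Base.isPos_of_mem_support hj
      simpa [pos] using this
    have hsum : ∀ g : H.root → ℕ, ∑ j, g (er j) = ∑ j ∈ b.support, g j := by
      intro g
      rw [Equiv.sum_comp er (fun j : b.support => g j), Finset.sum_coe_sort b.support g]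
    have hprod : ∀ g : H.root → ℕ, ∏ a, g (eN a) = ∏ a ∈ pos b, g a := by
      intro g
      rw [Equiv.prod_comp eN (fun j : pos b => g j), Finset.prod_coe_sort (pos b) g]
    have hposle : (pos b).card ≤ Fintype.card H.root := Finset.card_le_univ _
    have hsuple : b.support.card ≤ Fintype.card H.root := Finset.card_le_univ _
    refine ⟨b.support.card, (pos b).card, fun a j => f (eN a) (er j), fun j => k (er j) + 1,
      fun j => eN.symm ⟨er j, hsup _ (er j).2⟩, h2, ?_, ?_, ?_, ?_, ?_, ?_, ?_, ?_, ?_⟩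
    · rw [hcardPh]
      exact hsuple
    · rw [hcardPh]
      exact hposle
    · intro a j
      rw [hcardPh]
      have h3 : f (eN a) (er j) ≤ ∑ j ∈ b.support, f (eN a) j :=
        Finset.single_le_sum (f := fun j => f (eN a) j) (fun _ _ => Nat.zero_le _) (er j).2
      have h4 := hR1 (eN a) (eN a).2
      have h5 : R (eN a) ≤ 4 * (Fintype.card H.root : ℤ) := by
        rw [hR]
        have h6 : ∀ β ∈ pos b, PF.CC.rt (rootSystem H) β (eN a) ≤ 4 := by
          intro β _
          have h1 := (rootSystem H).pairingIn_pairingIn_mem_set_of_isCrystal_of_isRed β (eN a)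
          have h2 : PF.CC.rt (rootSystem H) β (eN a) = (rootSystem H).pairingIn ℤ β (eN a) := rfl
          rw [h2]
          simp only [Set.mem_insert_iff, Set.mem_singleton_iff, Prod.mk.injEq] at h1
          rcases h1 with h | h | h | h | h | h | h | h | h | h | h | h | h <;> rw [h.1] <;> norm_num
        refine (Finset.sum_le_sum h6).trans ?_
        rw [Finset.sum_const, nsmul_eq_mul]
        have : ((pos b).card : ℤ) ≤ (Fintype.card H.root : ℤ) := by exact_mod_cast hposle
        linarith
      have h6 : ((∑ j ∈ b.support, f (eN a) j : ℕ) : ℤ) ≤ 4 * (Fintype.card H.root : ℤ) := by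
        have : (0 : ℤ) ≤ ((∑ j ∈ b.support, f (eN a) j : ℕ) : ℤ) := Int.natCast_nonneg _
        linarith
      have h7 : ∑ j ∈ b.support, f (eN a) j ≤ 4 * Fintype.card H.root := by exact_mod_cast h6
      exact h3.trans h7
    · intro a
      rw [hsum (fun j => f (eN a) j)]
      exact hf' _ (eN a).2
    · intro j
      exact Nat.succ_pos _
    · intro j j' hjj
      have h3 := eN.symm.injective hjj
      have h4 : ((er j : b.support) : H.root) = ((er j' : b.support) : H.root) := congrArg (fun z : pos b => (z : H.root)) h3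
      exact er.injective (Subtype.ext h4)
    · intro j i
      simp only [Equiv.apply_symm_apply]
      have h3 : (rootSystem H).coroot (er j) = ∑ l ∈ b.support, ((if l = (er j : H.root) then 1 else 0 : ℕ) : K) •
          (rootSystem H).coroot l := by
        simp only [Nat.cast_ite, Nat.cast_one, Nat.cast_zero, ite_smul, one_smul, zero_smul, Finset.sum_ite_eq', (er j).2,
          if_true]
      have h4 := hf (er j) (hsup _ (er j).2)
      have h5 := coef_unique b (f := f (er j)) (g := fun l => if l = (er j : H.root) then 1 else 0)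
        (by rw [← h3]; exact h4.symm) (er i).2
      rw [h5]
      by_cases hij : i = j
      · rw [if_pos hij, if_pos (by rw [hij])]
      · rw [if_neg hij, if_neg]
        intro h6
        exact hij (er.injective (Subtype.ext h6))
    · intro j
      obtain ⟨α, hα1, hα2, hα3⟩ := exists_nonsimple b h2 (er j).2
      have hα : α ∈ pos b := by simpa [pos] using hα1
      refine ⟨eN.symm ⟨α, hα⟩, ?_, ?_⟩
      · intro i hi
        have h3 := eN.symm.injective hi
        have h4 : ((er i : b.support) : H.root) = α := congrArg (fun z : pos b => (z : H.root)) h3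
        rw [← h4] at hα2
        exact hα2 (er i).2
      · simp only [Equiv.apply_symm_apply]
        exact hα3 (f α) (hf α hα)
    · have e2 : ∀ α ∈ pos b, (B.w t + rho b) (coroot α.1) = ((∑ j ∈ b.support, f α j * (k j + 1) : ℕ) : K) := by
        intro α hα
        rw [hf α hα, map_sum, Nat.cast_sum]
        refine Finset.sum_congr rfl fun j hj => ?_
        have h3 : rho b (coroot j.1) = 1 := rho_coroot b hj
        rw [map_smul, LinearMap.add_apply, h3, hk j hj, smul_eq_mul, Nat.cast_mul, Nat.cast_add, Nat.cast_one]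
      have h3 : Fintype.card I * ∏ α ∈ pos b, (∑ j ∈ b.support, f α j) = ∏ α ∈ pos b, (∑ j ∈ b.support, f α j * (k j + 1)) := by
        have h4 : ((Fintype.card I * ∏ α ∈ pos b, (∑ j ∈ b.support, f α j) : ℕ) : K) =
            ((∏ α ∈ pos b, (∑ j ∈ b.support, f α j * (k j + 1)) : ℕ) : K) := by
          rw [Nat.cast_mul, Nat.cast_prod, Nat.cast_prod, ← Finset.prod_congr rfl e1, ← Finset.prod_congr rfl e2]
          exact hdim
        exact_mod_cast h4
      have h5 : ∏ a, ∑ j, f (eN a) (er j) = ∏ α ∈ pos b, (∑ j ∈ b.support, f α j) := by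
        rw [← hprod (fun α => ∑ j ∈ b.support, f α j)]
        exact Finset.prod_congr rfl fun a _ => hsum (fun j => f (eN a) j)
      have h6 : ∏ a, ∑ j, f (eN a) (er j) * (k (er j) + 1) = ∏ α ∈ pos b, (∑ j ∈ b.support, f α j * (k j + 1)) := by
        rw [← hprod (fun α => ∑ j ∈ b.support, f α j * (k j + 1))]
        exact Finset.prod_congr rfl fun a _ => hsum (fun j => f (eN a) j * (k j + 1))
      rw [h5, h6]
      exact h3

end PW
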