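import Pool.Agent.Helper27.TF.A

/-!
Project PW (MP_b8862a_ag): combinatorics of integral vectors, any number of boxes.
-/

set_option linter.unusedSectionVars false

open Module PF TF

namespace PW

section

variable {m K : ℕ}

/-- types `B`, `C`, `D`: from a vector with at least `K` boxes to one with entries `0, ±1` and `K` or `K + 1` boxes -/
theorem core_bcd (hm : K + 2 ≤ m) (P : (Fin m → ℤ) → Prop)
    (hP : ∀ z, P z → ∀ i j, i ≠ j → ∀ s t : ℤ, (s = 1 ∨ s = -1) → (t = 1 ∨ t = -1) → 1 ≤ s * z i + t * z j →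
      P (md z i j s t)) (z : Fin m → ℤ) (hz : P z) (h3 : (K : ℤ) ≤ ∑ i, |z i|) :
    ∃ w, P w ∧ (∀ i, |w i| ≤ 1) ∧ (∑ i, |w i| = K ∨ ∑ i, |w i| = K + 1) := by
  have hmz : (K : ℤ) + 2 ≤ m := by exact_mod_cast hm
  have key : ∀ n : ℕ, ∀ z, P z → (K : ℤ) ≤ ∑ i, |z i| → (∑ i, z i ^ 2).toNat = n →
      ∃ w, P w ∧ (∀ i, |w i| ≤ 1) ∧ (∑ i, |w i| = K ∨ ∑ i, |w i| = K + 1) := by
    intro n
    induction n using Nat.strong_induction_on with
    | _ n ih =>
      intro z hz h3 hn
      have hsg : ∀ x : ℤ, ∃ s : ℤ, (s = 1 ∨ s = -1) ∧ s * x = |x| ∧ (1 ≤ |x| → |x - s| = |x| - 1) := by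
        intro x
        rcases le_or_gt 0 x with hx | hx
        · refine ⟨1, Or.inl rfl, by rw [abs_of_nonneg hx, one_mul], fun h => ?_⟩
          rw [abs_of_nonneg hx] at h ⊢
          rw [abs_of_nonneg (by linarith)]
        · refine ⟨-1, Or.inr rfl, by rw [abs_of_neg hx]; ring, fun h => ?_⟩
          rw [abs_of_neg hx] at h ⊢
          rw [abs_of_nonpos (by linarith)]
          ring
      have hnn : ∀ z : Fin m → ℤ, 0 ≤ ∑ i, z i ^ 2 := fun z => Finset.sum_nonneg fun i _ => sq_nonneg _
      -- one step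
      have hone : ∀ i j, i ≠ j → ∀ s t : ℤ, (s = 1 ∨ s = -1) → (t = 1 ∨ t = -1) → 1 ≤ s * z i + t * z j →
          (K : ℤ) ≤ ∑ k, |z k| - |z i| - |z j| + |z i - s| + |z j - t| →
          (z i - s) ^ 2 + (z j - t) ^ 2 < z i ^ 2 + z j ^ 2 →
          ∃ w, P w ∧ (∀ i, |w i| ≤ 1) ∧ (∑ i, |w i| = K ∨ ∑ i, |w i| = K + 1) := by
        intro i j hij s t hs ht h1 h2 h4
        have h5 := sum_md (fun x => |x|) z hij s t
        have h6 := sum_md (fun x => x ^ 2) z hij s t
        beta_reduce at h5 h6
        refine ih (∑ k, (md z i j s t k) ^ 2).toNat ?_ _ (hP z hz i j hij s t hs ht h1) (by rw [h5]; exact h2) rfl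
        have h7 : ∑ k, (md z i j s t k) ^ 2 < ∑ k, z k ^ 2 := by rw [h6]; linarith
        have h8 := hnn z
        have h9 := hnn (md z i j s t)
        omega
      by_cases hb : ∃ i, 2 ≤ |z i|
      · obtain ⟨i, hi⟩ := hb
        obtain ⟨s, hs, hs1, hs2⟩ := hsg (z i)
        have hs3 := hs2 (by omega)
        have hsq : (z i - s) ^ 2 = (|z i| - 1) ^ 2 := by rw [← hs3, sq_abs]
        by_cases h0 : ∃ j, z j = 0
        · obtain ⟨j, hj⟩ := h0
          have hij : i ≠ j := by
            rintro rfl
            rw [hj] at hi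
            norm_num at hi
          refine hone i j hij s 1 hs (Or.inl rfl) (by rw [hj, hs1]; omega) ?_ ?_
          · rw [hs3, hj]; norm_num; linarith
          · rw [hsq, hj, ← sq_abs (z i)]; nlinarith
        · push Not at h0
          obtain ⟨j, hij⟩ : ∃ j, i ≠ j := by
            have : Nontrivial (Fin m) := Fin.nontrivial_iff_two_le.2 (by omega)
            obtain ⟨j, hj⟩ := exists_ne i
            exact ⟨j, hj.symm⟩
          obtain ⟨t, ht, ht1, ht2⟩ := hsg (z j)
          have hj1 : 1 ≤ |z j| := Int.one_le_abs (h0 j)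
          have ht3 := ht2 hj1
          have htq : (z j - t) ^ 2 = (|z j| - 1) ^ 2 := by rw [← ht3, sq_abs]
          have hbig : (m : ℤ) + 1 ≤ ∑ k, |z k| := by
            have h1 : ∑ k : Fin m, (if k = i then (2 : ℤ) else 1) ≤ ∑ k, |z k| := by
              refine Finset.sum_le_sum fun k _ => ?_
              split_ifs with hk
              · rw [hk]; exact hi
              · exact Int.one_le_abs (h0 k)
            have h2 : ∑ k : Fin m, (if k = i then (2 : ℤ) else 1) = m + 1 := by
              have h5 : ∀ k : Fin m, (if k = i then (2 : ℤ) else 1) = 1 + (if k = i then 1 else 0) := by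
                intro k; split_ifs <;> norm_num
              simp only [h5, Finset.sum_add_distrib, Finset.sum_const, Finset.card_univ, Fintype.card_fin,
                Finset.sum_ite_eq', Finset.mem_univ, if_true]
              simp
            linarith
          refine hone i j hij s t hs ht (by rw [hs1, ht1]; omega) ?_ ?_
          · rw [hs3, ht3]
            linarith
          · rw [hsq, htq, ← sq_abs (z i), ← sq_abs (z j)]; nlinarith
      · push Not at hb
        have hb' : ∀ i, |z i| ≤ 1 := fun i => by have := hb i; omega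
        by_cases h5 : (K : ℤ) + 2 ≤ ∑ i, |z i|
        · -- two nonzero entries
          have h6 : ∃ i, z i ≠ 0 := by
            by_contra hc
            push Not at hc
            simp only [hc, abs_zero, Finset.sum_const_zero] at h5
            omega
          obtain ⟨i, hi⟩ := h6
          have h7 : ∃ j, j ≠ i ∧ z j ≠ 0 := by
            by_contra hc
            push Not at hc
            have h8 : ∑ k, |z k| = |z i| := by
              refine Finset.sum_eq_single i (fun k _ hk => by rw [hc k hk, abs_zero]) (fun h => ?_)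
              exact absurd (Finset.mem_univ i) h
            have := hb' i
            omega
          obtain ⟨j, hji, hj⟩ := h7
          obtain ⟨s, hs, hs1, hs2⟩ := hsg (z i)
          obtain ⟨t, ht, ht1, ht2⟩ := hsg (z j)
          have hi1 : 1 ≤ |z i| := Int.one_le_abs hi
          have hj1 : 1 ≤ |z j| := Int.one_le_abs hj
          have hs3 := hs2 hi1
          have ht3 := ht2 hj1
          have hsq : (z i - s) ^ 2 = (|z i| - 1) ^ 2 := by rw [← hs3, sq_abs]
          have htq : (z j - t) ^ 2 = (|z j| - 1) ^ 2 := by rw [← ht3, sq_abs]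
          refine hone i j hji.symm s t hs ht (by rw [hs1, ht1]; omega) ?_ ?_
          · rw [hs3, ht3]
            linarith
          · rw [hsq, htq, ← sq_abs (z i), ← sq_abs (z j)]; nlinarith
        · exact ⟨z, hz, hb', by omega⟩
  exact key _ z hz h3 rfl

/-- type `A`: from a vector with at least `2 K` boxes to one with entries `0, ±1` and `2 K` boxes -/
theorem core_a (hm : 2 * K + 2 ≤ m) (P : (Fin m → ℤ) → Prop) (h0 : ∀ z, P z → ∑ i, z i = 0)
    (hP : ∀ z, P z → ∀ i j, i ≠ j → 1 ≤ z i - z j → P (md z i j 1 (-1))) (z : Fin m → ℤ) (hz : P z)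
    (h3 : 2 * (K : ℤ) ≤ ∑ i, |z i|) :
    ∃ w, P w ∧ (∀ i, |w i| ≤ 1) ∧ ∑ i, |w i| = 2 * K := by
  have hm' : 2 * (K : ℤ) + 2 ≤ m := by exact_mod_cast hm
  have key : ∀ n : ℕ, ∀ z, P z → 2 * (K : ℤ) ≤ ∑ i, |z i| → (∑ i, z i ^ 2).toNat = n →
      ∃ w, P w ∧ (∀ i, |w i| ≤ 1) ∧ ∑ i, |w i| = 2 * K := by
    intro n
    induction n using Nat.strong_induction_on with
    | _ n ih =>
      intro z hz h3 hn
      have hnn : ∀ z : Fin m → ℤ, 0 ≤ ∑ i, z i ^ 2 := fun z => Finset.sum_nonneg fun i _ => sq_nonneg _
      have hone : ∀ i j, i ≠ j → 1 ≤ z i - z j →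
          2 * (K : ℤ) ≤ ∑ k, |z k| - |z i| - |z j| + |z i - 1| + |z j + 1| →
          (z i - 1) ^ 2 + (z j + 1) ^ 2 < z i ^ 2 + z j ^ 2 →
          ∃ w, P w ∧ (∀ i, |w i| ≤ 1) ∧ ∑ i, |w i| = 2 * K := by
        intro i j hij h1 h2 h4
        have h5 := sum_md (fun x => |x|) z hij 1 (-1)
        have h6 := sum_md (fun x => x ^ 2) z hij 1 (-1)
        simp only [sub_neg_eq_add] at h5 h6
        refine ih (∑ k, (md z i j 1 (-1) k) ^ 2).toNat ?_ _ (hP z hz i j hij h1) (by rw [h5]; exact h2) rfl
        have h7 : ∑ k, (md z i j 1 (-1) k) ^ 2 < ∑ k, z k ^ 2 := by rw [h6]; linarith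
        have h8 := hnn z
        have h9 := hnn (md z i j 1 (-1))
        omega
      have hsum := h0 z hz
      -- parity
      have hpar : ∃ q : ℤ, ∑ i, |z i| = 2 * q := by
        have h1 : ∀ x : ℤ, ∃ q : ℤ, |x| - x = 2 * q := by
          intro x
          rcases le_or_gt 0 x with hx | hx
          · exact ⟨0, by rw [abs_of_nonneg hx]; ring⟩
          · exact ⟨-x, by rw [abs_of_neg hx]; ring⟩
        choose q hq using h1
        refine ⟨∑ i, q (z i), ?_⟩
        rw [Finset.mul_sum]
        have : ∑ i, |z i| = ∑ i, (|z i| - z i) := by rw [Finset.sum_sub_distrib, hsum, sub_zero]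
        rw [this]
        exact Finset.sum_congr rfl fun i _ => hq _
      obtain ⟨q, hq⟩ := hpar
      by_cases hb : ∃ i, 2 ≤ |z i|
      · obtain ⟨i, hi⟩ := hb
        by_cases hz0 : ∃ j, z j = 0
        · obtain ⟨j, hj⟩ := hz0
          have hij : i ≠ j := by
            rintro rfl
            rw [hj] at hi
            norm_num at hi
          rcases le_or_gt 0 (z i) with hi0 | hi0
          · rw [abs_of_nonneg hi0] at hi
            refine hone i j hij (by omega) ?_ ?_
            · rw [hj, abs_of_nonneg hi0, abs_of_nonneg (by omega : (0:ℤ) ≤ z i - 1)]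
              norm_num
              linarith
            · rw [hj]; nlinarith
          · rw [abs_of_neg hi0] at hi
            refine hone j i hij.symm (by omega) ?_ ?_
            · rw [hj, abs_of_neg hi0, abs_of_nonpos (by omega : z i + 1 ≤ (0:ℤ))]
              norm_num
              linarith
            · rw [hj]; nlinarith
        · push Not at hz0
          have hbig : (m : ℤ) + 1 ≤ ∑ k, |z k| := by
            have h1 : ∑ k : Fin m, (if k = i then (2 : ℤ) else 1) ≤ ∑ k, |z k| := by
              refine Finset.sum_le_sum fun k _ => ?_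
              split_ifs with hk
              · rw [hk]; exact hi
              · exact Int.one_le_abs (hz0 k)
            have h2 : ∑ k : Fin m, (if k = i then (2 : ℤ) else 1) = m + 1 := by
              have h5 : ∀ k : Fin m, (if k = i then (2 : ℤ) else 1) = 1 + (if k = i then 1 else 0) := by
                intro k; split_ifs <;> norm_num
              simp only [h5, Finset.sum_add_distrib, Finset.sum_const, Finset.card_univ, Fintype.card_fin,
                Finset.sum_ite_eq', Finset.mem_univ, if_true]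
              simp
            linarith
          rcases le_or_gt 0 (z i) with hi0 | hi0
          · rw [abs_of_nonneg hi0] at hi
            -- a negative entry
            obtain ⟨j, hj⟩ : ∃ j, z j < 0 := by
              by_contra hc
              push Not at hc
              have := Finset.sum_pos' (fun k _ => hc k) ⟨i, Finset.mem_univ i, by omega⟩
              omega
            have hij : i ≠ j := by rintro rfl; omega
            refine hone i j hij (by omega) ?_ ?_
            · rw [abs_of_nonneg hi0, abs_of_nonneg (by omega : (0:ℤ) ≤ z i - 1), abs_of_neg hj,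
                abs_of_nonpos (by omega : z j + 1 ≤ (0:ℤ))]
              linarith
            · nlinarith
          · rw [abs_of_neg hi0] at hi
            obtain ⟨j, hj⟩ : ∃ j, 0 < z j := by
              by_contra hc
              push Not at hc
              have h5 : 0 < ∑ k, -z k :=
                Finset.sum_pos' (fun k _ => by have := hc k; omega) ⟨i, Finset.mem_univ i, by omega⟩
              rw [Finset.sum_neg_distrib] at h5
              omega
            have hij : j ≠ i := by rintro rfl; omega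
            refine hone j i hij (by omega) ?_ ?_
            · rw [abs_of_neg hi0, abs_of_nonpos (by omega : z i + 1 ≤ (0:ℤ)), abs_of_pos hj,
                abs_of_nonneg (by omega : (0:ℤ) ≤ z j - 1)]
              linarith
            · nlinarith
      · push Not at hb
        have hb' : ∀ i, |z i| ≤ 1 := fun i => by have := hb i; omega
        by_cases h5 : 2 * (K : ℤ) + 1 ≤ ∑ i, |z i|
        · have h6' : 2 * (K : ℤ) + 2 ≤ ∑ i, |z i| := by omega
          obtain ⟨i, hi⟩ : ∃ i, 0 < z i := by
            by_contra hc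
            push Not at hc
            have h6 : ∀ k, z k = 0 := by
              by_contra h7
              push Not at h7
              obtain ⟨k, hk⟩ := h7
              have h8 : 0 < ∑ k, -z k :=
                Finset.sum_pos' (fun k _ => by have := hc k; omega)
                  ⟨k, Finset.mem_univ k, by have := hc k; omega⟩
              rw [Finset.sum_neg_distrib] at h8
              omega
            simp only [h6, abs_zero, Finset.sum_const_zero] at h5
            omega
          obtain ⟨j, hj⟩ : ∃ j, z j < 0 := by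
            by_contra hc
            push Not at hc
            have := Finset.sum_pos' (fun k _ => hc k) ⟨i, Finset.mem_univ i, hi⟩
            omega
          have hij : i ≠ j := by rintro rfl; omega
          have hi1 := hb' i
          have hj1 := hb' j
          rw [abs_of_pos hi] at hi1
          rw [abs_of_neg hj] at hj1
          have hi2 : z i = 1 := by omega
          have hj2 : z j = -1 := by omega
          refine hone i j hij (by omega) ?_ ?_
          · rw [hi2, hj2]
            norm_num
            omega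
          · rw [hi2, hj2]; norm_num
        · exact ⟨z, hz, hb', by omega⟩
  exact key _ z hz h3 rfl

end

/-- binomial coefficients are large -/
theorem pow_le_choose {m r : ℕ} (h : 2 * r ≤ m + 2) : m ^ r ≤ 2 ^ r * r.factorial * m.choose r := by
  have h1 := Nat.pow_sub_le_descFactorial m r
  rw [Nat.descFactorial_eq_factorial_mul_choose] at h1
  calc m ^ r ≤ (2 * (m + 1 - r)) ^ r := Nat.pow_le_pow_left (by omega) r
    _ = 2 ^ r * (m + 1 - r) ^ r := mul_pow _ _ _
    _ ≤ 2 ^ r * (r.factorial * m.choose r) := Nat.mul_le_mul_left _ h1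
    _ = 2 ^ r * r.factorial * m.choose r := by ring

theorem many {m K r N : ℕ} (hm : 4 * K ≤ m) (hm1 : 1 ≤ m) (h1 : K ≤ r) (h2 : r ≤ 2 * K) (h : m.choose r ≤ N) :
    m ^ K ≤ 4 ^ K * (2 * K).factorial * N := by
  calc m ^ K ≤ m ^ r := Nat.pow_le_pow_right hm1 h1
    _ ≤ 2 ^ r * r.factorial * m.choose r := pow_le_choose (by omega)
    _ ≤ 2 ^ r * r.factorial * N := Nat.mul_le_mul_left _ h
    _ ≤ 4 ^ K * (2 * K).factorial * N := by
      refine Nat.mul_le_mul_right _ (Nat.mul_le_mul ?_ (Nat.factorial_le h2))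
      calc 2 ^ r ≤ 2 ^ (2 * K) := Nat.pow_le_pow_right (by norm_num) h2
        _ = 4 ^ K := by rw [pow_mul]; norm_num

/-- the final estimate -/
theorem finish {K B D N m p : ℕ} {A : ℝ} (hA : 0 ≤ A) (h1 : A ^ K ≤ B * N) (h2 : m ^ K ≤ D * N)
    (h3 : (p : ℝ) ≤ 2 * A + 4 * m) : p ^ K ≤ (2 ^ K * (2 ^ K * B + 4 ^ K * D)) * N := by
  have h4 : ((m : ℝ)) ^ K ≤ D * N := by exact_mod_cast h2
  have h5 : (p : ℝ) ^ K ≤ (2 * A + 4 * m) ^ K := pow_le_pow_left₀ (by positivity) h3 K
  have h6 : (2 * A + 4 * m) ^ K ≤ 2 ^ K * ((2 * A) ^ K + (4 * m) ^ K) := by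
    rcases le_total (2 * A) (4 * m) with h | h
    · calc (2 * A + 4 * m) ^ K ≤ (2 * (4 * m)) ^ K := pow_le_pow_left₀ (by positivity) (by linarith) K
        _ = 2 ^ K * (4 * m) ^ K := mul_pow _ _ _
        _ ≤ 2 ^ K * ((2 * A) ^ K + (4 * m) ^ K) := by
          refine mul_le_mul_of_nonneg_left ?_ (by positivity)
          have : (0 : ℝ) ≤ (2 * A) ^ K := by positivity
          linarith
    · calc (2 * A + 4 * m) ^ K ≤ (2 * (2 * A)) ^ K := pow_le_pow_left₀ (by positivity) (by linarith) K
        _ = 2 ^ K * (2 * A) ^ K := mul_pow _ _ _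
        _ ≤ 2 ^ K * ((2 * A) ^ K + (4 * m) ^ K) := by
          refine mul_le_mul_of_nonneg_left ?_ (by positivity)
          have : (0 : ℝ) ≤ (4 * (m : ℝ)) ^ K := by positivity
          linarith
  have h7 : (2 : ℝ) ^ K * ((2 * A) ^ K + (4 * m) ^ K) ≤ 2 ^ K * (2 ^ K * (B * N) + 4 ^ K * (D * N)) := by
    refine mul_le_mul_of_nonneg_left ?_ (by positivity)
    rw [mul_pow, mul_pow]
    exact add_le_add (mul_le_mul_of_nonneg_left h1 (by positivity)) (mul_le_mul_of_nonneg_left h4 (by positivity))
  have h8 : (p : ℝ) ^ K ≤ ((2 : ℝ) ^ K * (2 ^ K * B + 4 ^ K * D)) * N := by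
    calc (p : ℝ) ^ K ≤ _ := h5.trans (h6.trans h7)
      _ = _ := by ring
  exact_mod_cast h8

/-- the growth of the number of weights -/
theorem card_ge {α : Type*} (X : Finset α) {K T : ℕ} (R : α → (Fin K → ℕ) → Prop)
    (hR : ∀ x t t', R x t → R x t' → t = t') (h : ∀ t : Fin K → ℕ, (∀ k, t k ≤ T) → ∃ x ∈ X, R x t) :
    (T + 1) ^ K ≤ X.card := by
  classical
  have h1 : ∀ t : Fin K → Fin (T + 1), ∃ x, x ∈ X ∧ R x (fun k => (t k : ℕ)) := by
    intro t
    obtain ⟨x, hx, hx'⟩ := h (fun k => (t k : ℕ)) fun k => by have := (t k).isLt; omega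
    exact ⟨x, hx, hx'⟩
  choose f hf hf' using h1
  have h2 : Fintype.card (Fin K → Fin (T + 1)) = (T + 1) ^ K := by
    rw [Fintype.card_fun, Fintype.card_fin, Fintype.card_fin]
  rw [← h2, ← Finset.card_univ]
  refine Finset.card_le_card_of_injOn f (fun t _ => hf t) ?_
  intro t _ t' _ htt
  have h3 := hR _ _ _ (hf' t) (by rw [htt]; exact hf' t')
  funext k
  exact Fin.ext (congrFun h3 k)

/-- from the floor to the power -/
theorem pow_of_floor {A : ℝ} {K L N : ℕ} (hA : 0 ≤ A) (hL : 0 < L) (h : (⌊A / L⌋₊ + 1) ^ K ≤ N) :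
    A ^ K ≤ ((L ^ K : ℕ) : ℝ) * N := by
  have h1 : A / L < (⌊A / L⌋₊ : ℝ) + 1 := Nat.lt_floor_add_one _
  have hL' : (0 : ℝ) < L := by exact_mod_cast hL
  have h2 : (A / L) ^ K ≤ ((⌊A / L⌋₊ : ℝ) + 1) ^ K := pow_le_pow_left₀ (by positivity) h1.le K
  have h3 : ((⌊A / L⌋₊ : ℝ) + 1) ^ K ≤ N := by exact_mod_cast h
  have h4 : A = L * (A / L) := by field_simp
  calc A ^ K = (L : ℝ) ^ K * (A / L) ^ K := by rw [← mul_pow, ← h4]
    _ ≤ (L : ℝ) ^ K * N := mul_le_mul_of_nonneg_left (h2.trans h3) (by positivity)
    _ = _ := by push_cast; ring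

end PW
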