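import Pool.Agent.Helper81.PW.Defs
import Pool.Agent.Helper3.PF.LPrime

/-!
Project PW (MP_b8862a_ag): the arithmetic datum of a root system with a base.
-/

set_option linter.unusedSectionVars false

open Module PF PF.W PF.L

namespace PW

variable {ι K M N : Type*} [Field K] [CharZero K] [AddCommGroup M] [Module K M] [AddCommGroup N] [Module K N]
  [Fintype ι] {P : RootPairing ι K M N}

theorem coef_unique (b : P.Base) {f g : ι → ℕ}
    (h : ∑ j ∈ b.support, (f j : K) • P.coroot j = ∑ j ∈ b.support, (g j : K) • P.coroot j) {j : ι}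
    (hj : j ∈ b.support) : f j = g j := by
  have h1 := linearIndepOn_iff'.mp b.linearIndepOn_coroot b.support (fun j => (f j : K) - (g j : K))
    (fun _ h => h) (by
      simp only [sub_smul, Finset.sum_sub_distrib]
      rw [h, sub_self]) j hj
  have h2 : (f j : K) = (g j : K) := sub_eq_zero.1 h1
  exact_mod_cast h2

variable [P.IsRootSystem] [P.IsCrystallographic] [P.IsReduced]

theorem exists_nb [P.IsIrreducible] (b : P.Base) (h2 : 2 ≤ b.support.card) {j : ι} (hj : j ∈ b.support) :
    ∃ i ∈ b.support, i ≠ j ∧ P.pairingIn ℤ j i < 0 := by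
  classical
  by_contra! hcon
  have h0 : ∀ i ∈ b.support, i ≠ j → P.pairing j i = 0 := by
    intro i hi hij
    have h3 := b.pairingIn_le_zero_of_ne (i := j) (j := i) (Ne.symm hij) hj hi
    have h4 := hcon i hi hij
    have h5 : P.pairingIn ℤ j i = 0 := le_antisymm h3 h4
    rw [← P.algebraMap_pairingIn ℤ, h5]
    simp
  obtain ⟨q, hq⟩ : ∃ q : Submodule K M, q = Submodule.span K {P.root j} := ⟨_, rfl⟩
  have hjq : P.root j ∈ q := by
    rw [hq]
    exact Submodule.mem_span_singleton_self _
  have h1 : ∀ i ∈ b.support, q ∈ Module.End.invtSubmodule (P.reflection i) := by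
    intro i hi
    rw [Module.End.mem_invtSubmodule]
    rw [hq, Submodule.span_le]
    rintro _ rfl
    rw [← hq]
    change P.reflection i (P.root j) ∈ q
    rw [P.reflection_apply_root]
    by_cases hij : i = j
    · subst hij
      exact sub_mem hjq (Submodule.smul_mem _ _ hjq)
    · rw [h0 i hi hij, zero_smul, sub_zero]
      exact hjq
  have h3 : q = ⊤ := by
    refine RootPairing.IsIrreducible.eq_top_of_invtSubmodule_reflection (P := P) q
      ((b.forall_mem_support_invtSubmodule_iff q).1 h1) ?_
    intro h4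
    rw [h4, Submodule.mem_bot] at hjq
    exact P.ne_zero j hjq
  obtain ⟨i, hi, hij⟩ : ∃ i ∈ b.support, i ≠ j := by
    by_contra! hcon2
    have h4 : b.support ⊆ {j} := fun i hi => Finset.mem_singleton.2 (hcon2 i hi)
    have h5 := Finset.card_le_card h4
    rw [Finset.card_singleton] at h5
    omega
  have h4 : P.root i ∈ q := by
    rw [h3]
    trivial
  rw [hq, Submodule.mem_span_singleton] at h4
  obtain ⟨a, ha⟩ := h4
  have h5 := b.linearIndependent_pair_of_ne (i := ⟨i, hi⟩) (j := ⟨j, hj⟩) (fun h => hij (congrArg Subtype.val h))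
  rw [LinearIndependent.pair_iff] at h5
  have h6 := h5 1 (-a) (by
    change (1 : K) • P.root i + (-a) • P.root j = 0
    rw [one_smul, neg_smul, ha, add_neg_cancel])
  exact one_ne_zero h6.1

theorem exists_nonsimple [P.IsIrreducible] (b : P.Base) (h2 : 2 ≤ b.support.card) {j : ι} (hj : j ∈ b.support) :
    ∃ α, b.IsPos α ∧ α ∉ b.support ∧ ∀ f : ι → ℕ, P.coroot α = ∑ l ∈ b.support, (f l : K) • P.coroot l → 1 ≤ f j := by
  classical
  obtain ⟨i, hi, hij, hneg⟩ := exists_nb b h2 hj
  refine ⟨P.reflectionPerm i j, (RootPairing.Base.isPos_of_mem_support hj).reflectionPerm hi (Ne.symm hij), ?_, ?_⟩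
  · intro hmem
    have h3 := RootPairing.Base.height_one_of_mem_support hmem
    have h4 : P.root (P.reflectionPerm i j) = P.root j + (-P.pairingIn ℤ j i) • P.root i := by
      rw [RootPairing.root_reflectionPerm, neg_smul, RootPairing.reflection_apply_root' ℤ, sub_eq_add_neg]
    rw [b.height_add_zsmul h4, RootPairing.Base.height_one_of_mem_support hj,
      RootPairing.Base.height_one_of_mem_support hi] at h3
    simp only [smul_eq_mul, mul_one] at h3
    omega
  · intro f hf
    have h5 : P.pairingIn ℤ i j ≤ 0 := b.pairingIn_le_zero_of_ne (i := i) (j := j) hij hi hj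
    obtain ⟨k, hk⟩ : ∃ k : ℕ, -P.pairingIn ℤ i j = (k : ℤ) := Int.eq_ofNat_of_zero_le (by omega)
    have hkK : P.pairing i j = -(k : K) := by
      rw [← P.algebraMap_pairingIn ℤ]
      have h6 : ((-P.pairingIn ℤ i j : ℤ) : K) = ((k : ℤ) : K) := by rw [hk]
      push_cast at h6
      rw [← h6, neg_neg]
      rfl
    have h6 : P.coroot (P.reflectionPerm i j) = P.coroot j + (k : K) • P.coroot i := by
      rw [P.coroot_reflectionPerm, P.coreflection_apply_coroot, hkK, neg_smul, sub_neg_eq_add]
    have h7 : P.coroot (P.reflectionPerm i j) =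
        ∑ l ∈ b.support, (((if l = j then 1 else 0) + (if l = i then k else 0) : ℕ) : K) • P.coroot l := by
      rw [h6]
      simp only [Nat.cast_add, add_smul, Finset.sum_add_distrib, Nat.cast_ite, Nat.cast_one, Nat.cast_zero, ite_smul,
        one_smul, zero_smul, Finset.sum_ite_eq', hj, hi, if_true]
    rw [h7] at hf
    have h8 := coef_unique b hf hj
    rw [← h8, if_pos rfl]
    omega

end PW
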