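import Pool.Agent.Helper81.PW.Large

/-!
Project PW (MP_b8862a_ag): the weights in the coordinates of `A_(m-1)`, `m` large.
-/

set_option linter.unusedSectionVars false

open Module PF TF

namespace PW

section

variable {E : Type*} [NormedAddCommGroup E] [InnerProductSpace ℝ E] {Φ X : Finset E} {m : ℕ} {u : Fin m → E}

theorem ax_smul (F : FrA Φ m u) (x : E) (r : ℝ) (i j k : Fin m) :
    (inner ℝ (x - r • (u i - u j)) (u k) : ℝ) =
      inner ℝ x (u k) - r * ((if i = k then 1 else 0) - (if j = k then 1 else 0)) := by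
  rw [_root_.inner_sub_left x (r • (u i - u j)) (u k), inner_smul_left, F.inner_sub, conj_trivial]

/-- many small coordinates -/
theorem card_small (F : FrA Φ m u) (hm : 0 < m) {x : E} {A : ℝ} (hA : 0 < A) (h : ∀ i, |(inner ℝ x (u i) : ℝ)| ≤ A) :
    m ≤ 3 * (Finset.univ.filter fun i => (inner ℝ x (u i) : ℝ) ≤ A / 2).card := by
  classical
  have h0 := F.sum_ax hm x
  have h1 : ∀ i, (A / 2) - (3 * A / 2) * (if (inner ℝ x (u i) : ℝ) ≤ A / 2 then 1 else 0) ≤ inner ℝ x (u i) := by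
    intro i
    have h2 := neg_abs_le (inner ℝ x (u i) : ℝ)
    have h3 := h i
    split_ifs with h4
    · linarith
    · push Not at h4
      linarith
  have h2 := Finset.sum_le_sum fun i (_ : i ∈ (Finset.univ : Finset (Fin m))) => h1 i
  rw [h0, Finset.sum_sub_distrib, ← Finset.mul_sum, Finset.sum_const, Finset.card_univ, Fintype.card_fin, nsmul_eq_mul,
    Finset.sum_boole] at h2
  have h3 : (m : ℝ) ≤ 3 * ((Finset.univ.filter fun i => (inner ℝ x (u i) : ℝ) ≤ A / 2).card : ℝ) := by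
    by_contra hcon
    push Not at hcon
    nlinarith
  exact_mod_cast h3

/-- growth -/
theorem growA (F : FrA Φ m u) (hX : Sat Φ X) {K : ℕ} (hK : 0 < K) (hm : 3 * (K + 1) ≤ m) {x : E} (hx : x ∈ X)
    (i0 : Fin m) (hmax : ∀ i, |(inner ℝ x (u i) : ℝ)| ≤ inner ℝ x (u i0)) :
    (inner ℝ x (u i0) : ℝ) ^ K ≤ (((2 * K) ^ K : ℕ) : ℝ) * X.card := by
  classical
  obtain ⟨A, hA⟩ : ∃ A, A = (inner ℝ x (u i0) : ℝ) := ⟨_, rfl⟩
  have hA0 : 0 ≤ A := hA ▸ (abs_nonneg _).trans (hmax i0)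
  rw [← hA]
  refine pow_of_floor hA0 (by omega) ?_
  obtain ⟨T, hT⟩ : ∃ T : ℕ, T = ⌊A / ((2 * K : ℕ) : ℝ)⌋₊ := ⟨_, rfl⟩
  rw [← hT]
  have hKr : (0 : ℝ) < K := by exact_mod_cast hK
  have hTA : (K : ℝ) * T ≤ A / 2 := by
    have h1 : (T : ℝ) ≤ A / ((2 * K : ℕ) : ℝ) := by rw [hT]; exact Nat.floor_le (by positivity)
    push_cast at h1
    rw [le_div_iff₀ (by positivity)] at h1
    linarith
  obtain ⟨j, hj, hj0⟩ : ∃ j : Fin K → Fin m, Function.Injective j ∧ ∀ k, i0 ≠ j k ∧ (inner ℝ x (u (j k)) : ℝ) ≤ A / 2 := by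
    rcases hA0.eq_or_lt with h0 | h0
    · obtain ⟨j, hj, hj0⟩ := exists_inj (K := K) (Finset.univ.erase i0)
        (by rw [Finset.card_erase_of_mem (Finset.mem_univ _), Finset.card_univ, Fintype.card_fin]; omega)
      refine ⟨j, hj, fun k => ⟨(Finset.mem_erase.1 (hj0 k)).1.symm, ?_⟩⟩
      have := (le_abs_self _).trans (hmax (j k))
      rw [← hA] at this
      linarith
    · have h1 := card_small F (by omega) h0 (fun i => hA ▸ hmax i)
      obtain ⟨j, hj, hj0⟩ := exists_inj (K := K) (Finset.univ.filter fun i => (inner ℝ x (u i) : ℝ) ≤ A / 2) (by omega)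
      refine ⟨j, hj, fun k => ?_⟩
      have h2 := (Finset.mem_filter.1 (hj0 k)).2
      refine ⟨?_, h2⟩
      intro h3
      rw [← h3, ← hA] at h2
      linarith
  refine card_ge X (K := K) (T := T) (fun y t => ∀ k, (inner ℝ y (u (j k)) : ℝ) = inner ℝ x (u (j k)) + t k) ?_ ?_
  · intro y t t' h1 h2
    funext k
    have h3 := (h1 k).symm.trans (h2 k)
    have h4 : (t k : ℝ) = t' k := by linarith
    exact_mod_cast h4
  · intro t ht
    have key : ∀ r : ℕ, r ≤ K → ∃ y ∈ X, (∀ k : Fin K, (inner ℝ y (u (j k)) : ℝ) =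
        inner ℝ x (u (j k)) + (if (k : ℕ) < r then (t k : ℝ) else 0)) ∧ A - r * T ≤ inner ℝ y (u i0) := by
      intro r
      induction r with
      | zero => exact fun _ => ⟨x, hx, fun k => by simp, by rw [hA]; simp⟩
      | succ r ih =>
        intro hr
        obtain ⟨y, hy, h1, h2⟩ := ih (by omega)
        obtain ⟨k, hk⟩ : ∃ k : Fin K, k = ⟨r, by omega⟩ := ⟨_, rfl⟩
        have hkr : (k : ℕ) = r := by rw [hk]
        have h3 := h1 k
        rw [if_neg (by omega), add_zero] at h3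
        have htk : (t k : ℝ) ≤ T := by exact_mod_cast ht k
        have hrK : ((r : ℝ) + 1) * T ≤ K * T := by
          refine mul_le_mul_of_nonneg_right ?_ (by positivity)
          exact_mod_cast hr
        have h4 := hX.str _ (F.mem' (hj0 k).1) y hy (t k) (by
          rw [F.co (hj0 k).1, h3]
          linarith [(hj0 k).2])
        refine ⟨_, h4, fun l => ?_, ?_⟩
        · rw [ax_smul F, h1 l, if_neg (hj0 l).1]
          by_cases hl : l = k
          · subst hl
            rw [if_neg (show ¬ (l : ℕ) < r by omega), if_pos (show (l : ℕ) < r + 1 by omega), if_pos rfl]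
            ring
          · have hl' : (l : ℕ) ≠ r := fun h => hl (Fin.ext (h.trans hkr.symm))
            have hl2 : j k ≠ j l := fun h => hl (hj h).symm
            rw [if_neg hl2]
            by_cases h5 : (l : ℕ) < r
            · rw [if_pos h5, if_pos (by omega)]; ring
            · rw [if_neg h5, if_neg (by omega)]; ring
        · rw [ax_smul F, if_pos rfl, if_neg (hj0 k).1.symm]
          push_cast
          linarith
    obtain ⟨y, hy, h1, _⟩ := key K le_rfl
    exact ⟨y, hy, fun k => by rw [h1 k, if_pos k.isLt]⟩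

/-- growth, any coordinate -/
theorem growA' (F : FrA Φ m u) (hX : Sat Φ X) {K : ℕ} (hK : 0 < K) (hm : 3 * (K + 1) ≤ m) {x : E} (hx : x ∈ X)
    (i : Fin m) : |(inner ℝ x (u i) : ℝ)| ^ K ≤ (((2 * K) ^ K : ℕ) : ℝ) * X.card := by
  classical
  obtain ⟨i0, _, hi0⟩ := Finset.exists_max_image (Finset.univ : Finset (Fin m)) (fun i => |(inner ℝ x (u i) : ℝ)|)
    ⟨i, Finset.mem_univ i⟩
  have h1 : |(inner ℝ x (u i) : ℝ)| ^ K ≤ |(inner ℝ x (u i0) : ℝ)| ^ K :=
    pow_le_pow_left₀ (abs_nonneg _) (hi0 i (Finset.mem_univ i)) K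
  refine h1.trans ?_
  rcases le_total 0 (inner ℝ x (u i0) : ℝ) with h2 | h2
  · have h3 := growA F hX hK hm hx i0 (fun k => by
      have := hi0 k (Finset.mem_univ k)
      rwa [abs_of_nonneg h2] at this)
    rwa [abs_of_nonneg h2]
  · have h3 := growA F hX hK hm (hX.neg x hx) i0 (fun k => by
      have := hi0 k (Finset.mem_univ k)
      rw [abs_of_nonpos h2] at this
      rw [inner_neg_left, inner_neg_left, abs_neg]
      exact this)
    rw [inner_neg_left] at h3
    rwa [abs_of_nonpos h2]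

theorem qs_leA (F : FrA Φ m u) {a : E} (ha : a ∈ Φ) : qs Φ a ≤ 4 * m := by
  classical
  obtain ⟨i, j, hij, rfl⟩ := (F.mem a).1 ha
  have hs : ∀ k : Fin m, ∑ g ∈ Φ, |(inner ℝ g (u k) : ℝ)| ≤ 2 * m := by
    intro k
    have h1 : Φ ⊆ (Finset.univ : Finset (Fin m)).offDiag.image fun p => u p.1 - u p.2 := by
      intro g hg
      obtain ⟨a, b, hab, rfl⟩ := (F.mem g).1 hg
      exact Finset.mem_image.2 ⟨(a, b), by simp [hab], rfl⟩
    have h2 : ∑ g ∈ Φ, |(inner ℝ g (u k) : ℝ)| ≤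
        ∑ p ∈ (Finset.univ : Finset (Fin m)).offDiag, |(inner ℝ (u p.1 - u p.2) (u k) : ℝ)| := by
      refine (Finset.sum_le_sum_of_subset_of_nonneg h1 fun g _ _ => abs_nonneg _).trans ?_
      exact Finset.sum_image_le_of_nonneg (fun g _ => abs_nonneg _)
    have h3 : ∑ p ∈ (Finset.univ : Finset (Fin m)).offDiag, |(inner ℝ (u p.1 - u p.2) (u k) : ℝ)| ≤
        ∑ p ∈ (Finset.univ : Finset (Fin m)).offDiag, ((if p.1 = k then (1 : ℝ) else 0) + (if p.2 = k then 1 else 0)) := by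
      refine Finset.sum_le_sum fun p _ => ?_
      rw [F.inner_sub]
      split_ifs <;> norm_num
    rw [sum_off (fun p q => (if p = k then (1 : ℝ) else 0) + (if q = k then 1 else 0))] at h3
    simp only [Finset.sum_add_distrib, Finset.sum_const, Finset.card_univ, Fintype.card_fin, ← Finset.mul_sum,
      Finset.sum_ite_eq', Finset.mem_univ, if_true, nsmul_eq_mul] at h3
    linarith
  have h1 : ∑ g ∈ Φ, |co (u i - u j) g| ≤ ∑ g ∈ Φ, (|(inner ℝ g (u i) : ℝ)| + |(inner ℝ g (u j) : ℝ)|) := by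
    refine Finset.sum_le_sum fun g _ => ?_
    rw [F.co hij]
    exact abs_sub _ _
  rw [Finset.sum_add_distrib] at h1
  have h2 := hs i
  have h3 := hs j
  unfold qs
  have : (0 : ℝ) ≤ m := by positivity
  linarith

/-- a weight with at least `2 K` boxes: many weights -/
theorem choose_intA (F : FrA Φ m u) (hX : Sat Φ X) {K : ℕ} (hm : 2 * K + 2 ≤ m) {x : E} (hx : x ∈ X) (z : Fin m → ℤ)
    (hz : ∀ i, (inner ℝ x (u i) : ℝ) = z i) (h3 : 2 * (K : ℤ) ≤ ∑ i, |z i|) : m.choose (2 * K) ≤ X.card := by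
  obtain ⟨w, ⟨x', hx', hw⟩, hw1, hw2⟩ := core_a (K := K) hm
    (fun z => ∃ x ∈ X, ∀ i, (inner ℝ x (u i) : ℝ) = z i) (by
      rintro z ⟨x, hx, hz⟩
      have h1 := F.sum_ax (by omega) x
      simp only [hz] at h1
      exact_mod_cast h1) (by
      rintro z ⟨x, hx, hz⟩ i j hij h1
      have h2 := F.step hX hx hij (by
        rw [hz i, hz j]
        exact_mod_cast h1)
      refine ⟨_, h2, fun k => ?_⟩
      rw [F.ax_step, hz k]
      unfold md
      by_cases hki : k = i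
      · subst hki; simp [hij.symm]
      · by_cases hkj : k = j
        · subst hkj; simp [hki, hij]
        · simp [hki, hkj, Ne.symm hki, Ne.symm hkj]) z ⟨x, hx, hz⟩ h3
  exact F.choose_of_small hX hx' w hw hw1 (k := 2 * K) (by rw [hw2]; push_cast; rfl)

/-- many weights: smooth dimensions -/
theorem smooth_of_manyA (F : FrA Φ m u) {n : ℕ} {l v : E} (h : Wd Φ X n l v) {K D : ℕ} (hK : 0 < K)
    (hm : 3 * (K + 1) ≤ m) (hD : m ^ K ≤ D * n) : n ∈ SM K (2 ^ K * (2 ^ K * (2 * K) ^ K + 4 ^ K * D)) := by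
  intro p hp hd
  obtain ⟨a, ha, x, hx, hle⟩ := h.prime p hp hd
  obtain ⟨i, j, hij, rfl⟩ := (F.mem a).1 ha
  obtain ⟨i0, hi0⟩ : ∃ i0, |(inner ℝ x (u i) : ℝ)| ≤ |(inner ℝ x (u i0) : ℝ)| ∧
      |(inner ℝ x (u j) : ℝ)| ≤ |(inner ℝ x (u i0) : ℝ)| := by
    rcases le_total |(inner ℝ x (u i) : ℝ)| |(inner ℝ x (u j) : ℝ)| with h1 | h1
    · exact ⟨j, h1, le_rfl⟩
    · exact ⟨i, le_rfl, h1⟩
  refine finish (A := |(inner ℝ x (u i0) : ℝ)|) (abs_nonneg _) ?_ hD ?_
  · refine (growA' F h.sat hK hm hx i0).trans ?_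
    refine mul_le_mul_of_nonneg_left ?_ (by positivity)
    exact_mod_cast h.card_le
  · rw [F.co hij] at hle
    have h2 := (le_abs_self _).trans (abs_sub (inner ℝ x (u i) : ℝ) (inner ℝ x (u j)))
    have h3 := qs_leA F ha
    linarith [hi0.1, hi0.2]

end

/-- **Type `A` of large rank.** -/
theorem large_frA (K : ℕ) (hK : 2 ≤ K) : ∃ R C : ℕ, ∀ {E : Type*} [NormedAddCommGroup E] [InnerProductSpace ℝ E]
    {Φ X : Finset E} {m n : ℕ} {l v : E} {u : Fin m → E}, Wd Φ X n l v → FrA Φ m u → R ≤ m → 0 < n →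
    n ∈ SM K C ∨
      (m ^ 2 ≤ 4 * n ∧ ∃ k : Fin m → ℤ, (∀ i, (inner ℝ l (u i) : ℝ) = k i) ∧ ∑ i, |k i| < 2 * K) := by
  obtain ⟨D, hD⟩ : ∃ D, D = 4 ^ K * (2 * K).factorial := ⟨_, rfl⟩
  refine ⟨4 * K + 5, 2 ^ K * (2 ^ K * (2 * K) ^ K + 4 ^ K * D), ?_⟩
  intro E _ _ Φ X m n l v u h F hm _
  have hbig : ∀ r, K ≤ r → r ≤ 2 * K → m.choose r ≤ X.card →
      n ∈ SM K (2 ^ K * (2 ^ K * (2 * K) ^ K + 4 ^ K * D)) := by
    intro r h1 h2 h3
    refine smooth_of_manyA F h (by omega) (by omega) ?_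
    rw [hD]
    exact many (by omega) (by omega) h1 h2 (h3.trans h.card_le)
  by_cases hS : n ∈ SM K (2 ^ K * (2 ^ K * (2 * K) ^ K + 4 ^ K * D))
  · exact Or.inl hS
  have hsm : ∀ x ∈ X, ∃ z : Fin m → ℤ, (∀ i, (inner ℝ x (u i) : ℝ) = z i) ∧ ∑ i, |z i| < 2 * K := by
    intro x hx
    rcases F.int_or h.sat (by omega) hx with ⟨z, hz⟩ | hz
    · refine ⟨z, hz, ?_⟩
      by_contra h3
      push Not at h3
      exact hS (hbig (2 * K) (by omega) le_rfl (choose_intA F h.sat (by omega) hx z hz h3))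
    · exfalso
      exact hS (hbig K le_rfl (by omega) ((Nat.choose_le_middle K m).trans (F.choose_of_half h.sat (by omega) hx hz)))
  obtain ⟨z, hz, hz2⟩ := hsm l h.l_mem
  refine Or.inr ⟨?_, z, hz, hz2⟩
  have h2 : (2 : ℤ) ≤ ∑ i, |z i| := by
    by_contra hcon
    push Not at hcon
    have hlsp := Sat.span27 h.sat h.l_mem
    have hz0 : ∑ i, z i = 0 := by
      have h1 := F.sum_ax (by omega) l
      simp only [hz] at h1
      exact_mod_cast h1
    rcases small_z (by omega : ∑ i, |z i| ≤ 2) with h0 | ⟨k, hk, hj⟩ | ⟨k, hk, hj⟩ | ⟨k, k', hkk, hk, hk', hj⟩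
    · apply h.l_ne
      have : (inner ℝ l l : ℝ) = 0 := by
        rw [F.inner_eq hlsp]
        exact Finset.sum_eq_zero fun i _ => by rw [hz i, h0 i]; norm_num
      exact inner_self_eq_zero.1 this
    · rw [Finset.sum_eq_single k (fun i _ hi => hj i hi) (fun h => absurd (Finset.mem_univ k) h)] at hz0
      rw [hz0] at hk
      norm_num at hk
    · rw [Finset.sum_eq_single k (fun i _ hi => hj i hi) (fun h => absurd (Finset.mem_univ k) h)] at hz0
      rw [hz0] at hk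
      norm_num at hk
    · have h1 : |z k| + |z k'| ≤ ∑ i, |z i| := by
        rw [← Finset.add_sum_erase _ _ (Finset.mem_univ k),
          ← Finset.add_sum_erase _ _ (Finset.mem_erase.2 ⟨hkk.symm, Finset.mem_univ k'⟩)]
        have : 0 ≤ ∑ i ∈ (Finset.univ.erase k).erase k', |z i| := Finset.sum_nonneg fun k _ => abs_nonneg _
        linarith
      omega
  have hch := (choose_intA F h.sat (K := 1) (by omega) h.l_mem z hz (by push_cast; omega)).trans h.card_le
  rw [mul_one] at hch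
  have h3 := choose_two m
  obtain ⟨t, rfl⟩ : ∃ t, m = t + 2 := ⟨m - 2, by omega⟩
  have h4 : t + 2 - 1 = t + 1 := by omega
  rw [h4] at h3
  nlinarith

end PW
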